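import Mathlib

/-! Labelled graphs on `Fin n` given by their adjacency bits, and the graph isomorphism function. -/

namespace Pool.Agent.H526R2.GI

/-- The possible edges of a graph with vertex set `Fin n`: unordered pairs of distinct vertices. -/
abbrev Pr (n : ℕ) := {e : Sym2 (Fin n) // ¬ e.IsDiag}

/-- The simple graph on `Fin n` with adjacency bits `x`. -/
def graph {n : ℕ} (x : Pr n → Bool) : SimpleGraph (Fin n) where
  Adj u v := ∃ h : ¬ (s(u, v)).IsDiag, x ⟨s(u, v), h⟩ = true
  symm := by
    constructor
    intro u v h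
    simpa [Sym2.eq_swap] using h
  loopless := by
    constructor
    intro u h
    obtain ⟨h, _⟩ := h
    exact h (by simp)

/-- The input bits of the graph isomorphism function for graphs with `n` vertices: the
adjacency bits of the first graph (`Sum.inl`) and those of the second one (`Sum.inr`). -/
abbrev Var (n : ℕ) := Pr n ⊕ Pr n

/-- The graph isomorphism function: the two graphs described by `z` are isomorphic. -/
def IsIso {n : ℕ} (z : Var n → Bool) : Prop :=
  Nonempty (graph (fun e => z (Sum.inl e)) ≃g graph (fun e => z (Sum.inr e)))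

/-- The action of a permutation of the vertices on the possible edges. -/
def act {n : ℕ} (π : Equiv.Perm (Fin n)) : Equiv.Perm (Pr n) where
  toFun e := ⟨e.1.map π, by rw [Sym2.isDiag_map π.injective]; exact e.2⟩
  invFun e := ⟨e.1.map π.symm, by rw [Sym2.isDiag_map π.symm.injective]; exact e.2⟩
  left_inv e := by
    apply Subtype.ext
    simp [Sym2.map_map]
  right_inv e := by
    apply Subtype.ext
    simp [Sym2.map_map]

theorem graph_adj {n : ℕ} (x : Pr n → Bool) (u v : Fin n) :
    (graph x).Adj u v ↔ ∃ h : ¬ (s(u, v)).IsDiag, x ⟨s(u, v), h⟩ = true := Iff.rfl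

theorem isIso_iff {n : ℕ} (z : Var n → Bool) :
    IsIso z ↔ ∃ π : Equiv.Perm (Fin n), ∀ e, z (Sum.inr (act π e)) = z (Sum.inl e) := by
  constructor
  · rintro ⟨f⟩
    refine ⟨f.toEquiv, ?_⟩
    rintro ⟨e, he⟩
    induction e using Sym2.ind with
    | _ u v =>
      have h1 := f.map_adj_iff (v := u) (w := v)
      rw [graph_adj, graph_adj] at h1
      have hd : ¬ (s(f u, f v)).IsDiag := by
        simpa using he
      rw [Bool.eq_iff_iff]
      constructor
      · intro h
        obtain ⟨_, h2⟩ := h1.1 ⟨hd, h⟩
        exact h2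
      · intro h
        obtain ⟨_, h2⟩ := h1.2 ⟨he, h⟩
        exact h2
  · rintro ⟨π, h⟩
    refine ⟨⟨π, ?_⟩⟩
    intro u v
    rw [graph_adj, graph_adj]
    constructor
    · rintro ⟨hd, h1⟩
      have hd' : ¬ (s(u, v)).IsDiag := by
        simpa using hd
      refine ⟨hd', ?_⟩
      rw [← h ⟨s(u, v), hd'⟩]
      exact h1
    · rintro ⟨hd, h1⟩
      have hd' : ¬ (s(π u, π v)).IsDiag := by
        simpa using hd
      refine ⟨hd', ?_⟩
      rw [← h ⟨s(u, v), hd⟩] at h1
      exact h1

end Pool.Agent.H526R2.GI
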