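import Mathlib
import Pool.Agent.H526R2.GI.Defs

/-! Counting solutions of systems of equalities between bits. -/

namespace Pool.Agent.H526R2.GI

open Finset

theorem exists_indep {I V : Type*} [DecidableEq I] [DecidableEq V] (l r : I → V) (D : Finset I)
    (hl : Set.InjOn l D) (hr : Set.InjOn r D) (hne : ∀ e ∈ D, l e ≠ r e) :
    ∃ D' ⊆ D, D.card ≤ 3 * D'.card ∧ ∀ e ∈ D', ∀ e' ∈ D', l e ≠ r e' := by
  induction' hk : D.card using Nat.strong_induction_on with k ih generalizing D
  rcases D.eq_empty_or_nonempty with rfl | ⟨e, he⟩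
  · exact ⟨∅, by simp, by simpa using hk.symm.le, by simp⟩
  · set D1 := D.filter (fun f => f ≠ e ∧ l e ≠ r f ∧ l f ≠ r e) with hD1
    have hsub : D1 ⊆ D := filter_subset _ _
    have he1 : e ∉ D1 := by simp [hD1]
    have hlt : D1.card < k := by
      rw [← hk]
      exact card_lt_card ⟨hsub, fun h => he1 (h he)⟩
    obtain ⟨D', hD', hcard, hind⟩ := ih D1.card hlt D1 (hl.mono (by exact_mod_cast hsub))
      (hr.mono (by exact_mod_cast hsub)) (fun f hf => hne f (hsub hf)) rfl
    have heD' : e ∉ D' := fun h => he1 (hD' h)
    refine ⟨insert e D', ?_, ?_, ?_⟩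
    · intro f hf
      rcases mem_insert.1 hf with rfl | hf
      · exact he
      · exact hsub (hD' hf)
    · rw [card_insert_of_notMem heD']
      have hcov : D ⊆ D1 ∪ ({e} ∪ (D.filter (fun f => l e = r f) ∪ D.filter (fun f => l f = r e))) := by
        intro f hf
        simp only [hD1, mem_union, mem_filter, mem_singleton]
        by_cases h1 : f = e
        · right; left; exact h1
        by_cases h2 : l e = r f
        · right; right; left; exact ⟨hf, h2⟩
        by_cases h3 : l f = r e
        · right; right; right; exact ⟨hf, h3⟩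
        left; exact ⟨hf, h1, h2, h3⟩
      have hc1 : (D.filter (fun f => l e = r f)).card ≤ 1 := by
        rw [card_le_one]
        intro a ha b hb
        simp only [mem_filter] at ha hb
        exact hr (by exact_mod_cast ha.1) (by exact_mod_cast hb.1) (ha.2.symm.trans hb.2)
      have hc2 : (D.filter (fun f => l f = r e)).card ≤ 1 := by
        rw [card_le_one]
        intro a ha b hb
        simp only [mem_filter] at ha hb
        exact hl (by exact_mod_cast ha.1) (by exact_mod_cast hb.1) (ha.2.trans hb.2.symm)
      have h4 := card_le_card hcov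
      have h5 := card_union_le D1 ({e} ∪ (D.filter (fun f => l e = r f) ∪ D.filter (fun f => l f = r e)))
      have h6 := card_union_le {e} (D.filter (fun f => l e = r f) ∪ D.filter (fun f => l f = r e))
      have h7 := card_union_le (D.filter (fun f => l e = r f)) (D.filter (fun f => l f = r e))
      rw [card_singleton] at h6
      omega
    · intro f hf g hg
      rcases mem_insert.1 hf with rfl | hf'
      · rcases mem_insert.1 hg with rfl | hg'
        · exact hne _ he
        · have := hD' hg'
          simp only [hD1, mem_filter] at this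
          exact this.2.2.1
      · rcases mem_insert.1 hg with rfl | hg'
        · have := hD' hf'
          simp only [hD1, mem_filter] at this
          exact this.2.2.2
        · exact hind f hf' g hg'

theorem card_sol_le {I V : Type*} [Fintype V] [DecidableEq V] [DecidableEq I]
    (l r : I → V) (D : Finset I) (hl : Set.InjOn l D)
    (hne : ∀ e ∈ D, ∀ e' ∈ D, l e ≠ r e') :
    (univ.filter (fun z : V → Bool => ∀ e ∈ D, z (l e) = z (r e))).card * 2 ^ D.card
      ≤ 2 ^ Fintype.card V := by
  classical
  set S := univ.filter (fun z : V → Bool => ∀ e ∈ D, z (l e) = z (r e)) with hS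
  have hcard : S.card ≤ Fintype.card ({v // v ∉ D.image l} → Bool) := by
    rw [← card_univ]
    refine card_le_card_of_injOn (fun z v => z v.1) (fun _ _ => mem_univ _) ?_
    intro z hz z' hz' hzz
    simp only [hS, coe_filter, mem_univ, true_and, Set.mem_ofPred_eq] at hz hz'
    have key : ∀ v, v ∉ D.image l → z v = z' v := fun v hv => congrFun hzz ⟨v, hv⟩
    funext v
    by_cases hv : v ∈ D.image l
    · obtain ⟨e, he, rfl⟩ := mem_image.1 hv
      rw [hz e he, hz' e he]
      apply key
      intro h
      obtain ⟨e', he', h⟩ := mem_image.1 h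
      exact hne e' he' e he h
    · exact key v hv
  have h2 : Fintype.card {v // v ∉ D.image l} + D.card = Fintype.card V := by
    have := Fintype.card_subtype_compl (fun v => v ∈ D.image l)
    rw [Fintype.card_coe, card_image_of_injOn hl] at this
    have h3 : D.card ≤ Fintype.card V := by
      rw [← card_image_of_injOn hl]
      exact card_le_univ _
    rw [this]
    omega
  calc S.card * 2 ^ D.card ≤ Fintype.card ({v // v ∉ D.image l} → Bool) * 2 ^ D.card :=
        Nat.mul_le_mul_right _ hcard
    _ = 2 ^ Fintype.card V := by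
        rw [Fintype.card_fun, Fintype.card_bool, ← pow_add, h2]

theorem card_sol_le' {I V : Type*} [Fintype V] [DecidableEq V] [Fintype I] [DecidableEq I]
    (l r : I → V) (hl : Function.Injective l) (hr : Function.Injective r) (k : ℕ)
    (hk : 3 * k ≤ (univ.filter (fun e => l e ≠ r e)).card) :
    (univ.filter (fun z : V → Bool => ∀ e, z (l e) = z (r e))).card * 2 ^ k
      ≤ 2 ^ Fintype.card V := by
  obtain ⟨D', _, h1, h2⟩ := exists_indep l r (univ.filter (fun e => l e ≠ r e)) hl.injOn hr.injOn
    (by intro e he; simpa using he)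
  have h3 := card_sol_le l r D' hl.injOn h2
  have hk' : k ≤ D'.card := by omega
  refine le_trans ?_ h3
  apply Nat.mul_le_mul
  · apply card_le_card
    intro z hz
    simp only [mem_filter, mem_univ, true_and] at hz ⊢
    intro e _
    exact hz e
  · exact Nat.pow_le_pow_right (by norm_num) hk'

/-- Mixture of two inputs: take the bits in `X` from `z`, the others from `z'`. -/
def mix {V : Type*} [DecidableEq V] (X : Finset V) (z z' : V → Bool) : V → Bool :=
  fun v => if v ∈ X then z v else z' v

/-- The input `(x, π x)`. -/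
def inp {n : ℕ} (π : Equiv.Perm (Fin n)) (x : Pr n → Bool) : Var n → Bool :=
  Sum.elim x (fun e => x ((act π).symm e))

theorem isIso_inp {n : ℕ} (π : Equiv.Perm (Fin n)) (x : Pr n → Bool) : IsIso (inp π x) := by
  rw [isIso_iff]
  exact ⟨π, fun e => by simp [inp]⟩

open Classical in
/-- The positions `e` at which the equation `K e = L (ρ e)` is not trivial. -/
noncomputable def bad {n : ℕ} (X : Finset (Var n)) (σ π ρ : Equiv.Perm (Fin n)) : Finset (Pr n) :=
  univ.filter (fun e => ¬ ((Sum.inl e ∈ X ∧ Sum.inr (act ρ e) ∈ X ∧ act ρ e = act σ e) ∨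
    (Sum.inl e ∉ X ∧ Sum.inr (act ρ e) ∉ X ∧ act ρ e = act π e)))

theorem card_mul_card_le {n : ℕ} (X : Finset (Var n)) (σ π : Equiv.Perm (Fin n))
    (R R' : Finset (Pr n → Bool))
    (hmix : ∀ x ∈ R, ∀ x' ∈ R', IsIso (mix X (inp σ x) (inp π x')))
    (k : ℕ) (hk : ∀ ρ, 3 * k ≤ (bad X σ π ρ).card) :
    R.card * R'.card * 2 ^ k ≤ n.factorial * 2 ^ Fintype.card (Var n) := by
  classical
  let l : Pr n → Var n := fun e => if Sum.inl e ∈ X then Sum.inl e else Sum.inr e
  let r : Equiv.Perm (Fin n) → Pr n → Var n := fun ρ e =>
    if Sum.inr (act ρ e) ∈ X then Sum.inl ((act σ).symm (act ρ e))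
      else Sum.inr ((act π).symm (act ρ e))
  have hl : Function.Injective l := by
    intro e e' h
    simp only [l] at h
    split_ifs at h
    · exact Sum.inl_injective h
    · exact Sum.inr_injective h
  have hr : ∀ ρ, Function.Injective (r ρ) := by
    intro ρ e e' h
    simp only [r] at h
    split_ifs at h
    · exact (act ρ).injective ((act σ).symm.injective (Sum.inl_injective h))
    · exact (act ρ).injective ((act π).symm.injective (Sum.inr_injective h))
  let Sol : Equiv.Perm (Fin n) → Finset (Var n → Bool) := fun ρ =>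
    univ.filter (fun z => ∀ e, z (l e) = z (r ρ e))
  have hsol : ∀ ρ, (Sol ρ).card * 2 ^ k ≤ 2 ^ Fintype.card (Var n) := by
    intro ρ
    apply card_sol_le' l (r ρ) hl (hr ρ) k
    refine le_trans (hk ρ) (card_le_card ?_)
    intro e he
    simp only [bad, mem_filter, mem_univ, true_and] at he ⊢
    intro h
    apply he
    simp only [l, r] at h
    by_cases h1 : Sum.inl e ∈ X
    · rw [if_pos h1] at h
      by_cases h2 : Sum.inr (act ρ e) ∈ X
      · rw [if_pos h2] at h
        left
        refine ⟨h1, h2, ?_⟩
        have := Sum.inl_injective h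
        rw [this]
        simp only [Equiv.apply_symm_apply]
        rw [← this]
      · rw [if_neg h2] at h
        exact absurd h (by simp)
    · rw [if_neg h1] at h
      by_cases h2 : Sum.inr (act ρ e) ∈ X
      · rw [if_pos h2] at h
        exact absurd h (by simp)
      · rw [if_neg h2] at h
        right
        refine ⟨h1, h2, ?_⟩
        have := Sum.inr_injective h
        rw [this]
        simp only [Equiv.apply_symm_apply]
        rw [← this]
  have hcover : (R ×ˢ R').card ≤ (univ.biUnion Sol).card := by
    refine card_le_card_of_injOn (fun p => Sum.elim p.1 p.2) ?_ ?_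
    · rintro ⟨x, x'⟩ hp
      have hp' := mem_product.1 (by exact_mod_cast hp)
      obtain ⟨ρ, hρ⟩ := (isIso_iff _).1 (hmix x hp'.1 x' hp'.2)
      simp only [coe_biUnion, Set.mem_iUnion]
      refine ⟨ρ, by simp, ?_⟩
      simp only [Sol, coe_filter, mem_univ, true_and, Set.mem_ofPred_eq]
      intro e
      have h := hρ e
      simp only [mix, inp, Sum.elim_inl, Sum.elim_inr] at h
      simp only [l, r]
      by_cases h1 : Sum.inl e ∈ X
      · rw [if_pos h1] at h ⊢
        by_cases h2 : Sum.inr (act ρ e) ∈ X
        · rw [if_pos h2] at h ⊢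
          simpa using h.symm
        · rw [if_neg h2] at h ⊢
          simpa using h.symm
      · rw [if_neg h1] at h ⊢
        by_cases h2 : Sum.inr (act ρ e) ∈ X
        · rw [if_pos h2] at h ⊢
          simpa using h.symm
        · rw [if_neg h2] at h ⊢
          simpa using h.symm
    · rintro ⟨x, x'⟩ _ ⟨y, y'⟩ _ h
      have h' : Sum.elim x x' = Sum.elim y y' := h
      have h1 : x = y := by
        funext e
        exact congrFun h' (Sum.inl e)
      have h2 : x' = y' := by
        funext e
        exact congrFun h' (Sum.inr e)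
      rw [h1, h2]
  calc R.card * R'.card * 2 ^ k = (R ×ˢ R').card * 2 ^ k := by rw [card_product]
    _ ≤ (univ.biUnion Sol).card * 2 ^ k := Nat.mul_le_mul_right _ hcover
    _ ≤ (∑ ρ, (Sol ρ).card) * 2 ^ k := Nat.mul_le_mul_right _ card_biUnion_le
    _ = ∑ ρ, (Sol ρ).card * 2 ^ k := by rw [sum_mul]
    _ ≤ ∑ ρ : Equiv.Perm (Fin n), 2 ^ Fintype.card (Var n) := sum_le_sum (fun ρ _ => hsol ρ)
    _ = n.factorial * 2 ^ Fintype.card (Var n) := by
        rw [sum_const, card_univ, Fintype.card_perm, Fintype.card_fin, smul_eq_mul]

end Pool.Agent.H526R2.GI
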