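import Mathlib
import Pool.Agent.H526R2.GI.Count

/-! Permutations that solve most equations agree on many vertices. -/

namespace Pool.Agent.H526R2.GI

open Finset

/-- Number of pairs of `A` containing the vertex `i`. -/
def deg {n : ℕ} (A : Finset (Pr n)) (i : Fin n) : ℕ := (A.filter (fun e => i ∈ e.1)).card

theorem sum_deg {n : ℕ} (A : Finset (Pr n)) : ∑ i, deg A i = 2 * A.card := by
  classical
  have h1 : ∑ i, deg A i = ∑ e ∈ A, (univ.filter (fun i => i ∈ e.1)).card := by
    unfold deg
    simp_rw [card_filter]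
    rw [sum_comm]
  rw [h1]
  have h2 : ∀ e ∈ A, (univ.filter (fun i => i ∈ e.1)).card = 2 := by
    intro e _
    rw [← Sym2.card_toFinset_of_not_isDiag e.1 e.2]
    congr 1
    ext i
    simp
  rw [sum_congr rfl h2, sum_const, smul_eq_mul, mul_comm]

theorem deg_le_deg_bad {n : ℕ} {A B : Finset (Pr n)} (σ ρ : Equiv.Perm (Fin n)) (i : Fin n)
    (hi : ρ i ≠ σ i) (h : ∀ e ∈ A, e ∉ B → act ρ e = act σ e) : deg A i ≤ deg B i + 1 := by
  classical
  have hsub : A.filter (fun e => i ∈ e.1) ⊆ B.filter (fun e => i ∈ e.1) ∪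
      (univ.filter (fun e : Pr n => i ∈ e.1 ∧ act ρ e = act σ e)) := by
    intro e he
    simp only [mem_filter, mem_union, mem_univ, true_and] at he ⊢
    by_cases hb : e ∈ B
    · left; exact ⟨hb, he.2⟩
    · right; exact ⟨he.2, h e he.1 hb⟩
  have hone : (univ.filter (fun e : Pr n => i ∈ e.1 ∧ act ρ e = act σ e)).card ≤ 1 := by
    rw [card_le_one]
    have key : ∀ e : Pr n, i ∈ e.1 → act ρ e = act σ e → e.1 = s(i, σ.symm (ρ i)) := by
      rintro ⟨e, he⟩ hie heq
      obtain ⟨j, rfl⟩ := hie
      have h1 : (s(ρ i, ρ j) : Sym2 (Fin n)) = s(σ i, σ j) := congrArg Subtype.val heq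
      rw [Sym2.eq_iff] at h1
      rcases h1 with h1 | h1
      · exact absurd h1.1 hi
      · simp [h1.1]
    intro a ha b hb
    simp only [mem_filter, mem_univ, true_and] at ha hb
    apply Subtype.ext
    rw [key a ha.1 ha.2, key b hb.1 hb.2]
  calc deg A i ≤ _ := card_le_card hsub
    _ ≤ _ := card_union_le _ _
    _ ≤ deg B i + 1 := Nat.add_le_add_left hone _

theorem card_mul_le_of_deg {n : ℕ} {A B : Finset (Pr n)} (σ ρ : Equiv.Perm (Fin n)) (g : ℕ)
    (W : Finset (Fin n)) (hW : ∀ i ∈ W, g + 1 ≤ deg A i)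
    (h : ∀ e ∈ A, e ∉ B → act ρ e = act σ e) :
    (W.filter (fun i => ρ i ≠ σ i)).card * g ≤ 2 * B.card := by
  classical
  calc (W.filter (fun i => ρ i ≠ σ i)).card * g
      = ∑ i ∈ W.filter (fun i => ρ i ≠ σ i), g := by rw [sum_const, smul_eq_mul]
    _ ≤ ∑ i ∈ W.filter (fun i => ρ i ≠ σ i), deg B i := by
        apply sum_le_sum
        intro i hi
        simp only [mem_filter] at hi
        have h1 := hW i hi.1
        have h2 := deg_le_deg_bad σ ρ i hi.2 h
        omega
    _ ≤ ∑ i, deg B i := sum_le_sum_of_subset (subset_univ _)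
    _ = 2 * B.card := sum_deg B

/-- first-graph part of a set of input bits -/
def left {n : ℕ} (X : Finset (Var n)) : Finset (Pr n) := univ.filter (fun e => Sum.inl e ∈ X)

/-- second-graph part of a set of input bits -/
def right {n : ℕ} (X : Finset (Var n)) : Finset (Pr n) := univ.filter (fun e => Sum.inr e ∈ X)

theorem card_left_add_card_right {n : ℕ} (X : Finset (Var n)) :
    (left X).card + (right X).card = X.card := by
  classical
  have h1 : X = (left X).map ⟨Sum.inl, Sum.inl_injective⟩ ∪ (right X).map ⟨Sum.inr, Sum.inr_injective⟩ := by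
    ext v
    rcases v with v | v
    · simp [left]
    · simp [right]
  have h2 : Disjoint ((left X).map ⟨(Sum.inl : Pr n → Var n), Sum.inl_injective⟩)
      ((right X).map ⟨Sum.inr, Sum.inr_injective⟩) := by
    rw [disjoint_left]
    intro v hv hv'
    simp only [mem_map, Function.Embedding.coeFn_mk] at hv hv'
    obtain ⟨a, _, rfl⟩ := hv
    obtain ⟨b, _, hb⟩ := hv'
    cases hb
  conv_rhs => rw [h1]
  rw [card_union_of_disjoint h2, card_map, card_map]

/-- If all but few equations are trivial then `σ` and `π` agree on most vertices of `W`. -/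
theorem agree_of_bad {n : ℕ} (X : Finset (Var n)) (σ π ρ : Equiv.Perm (Fin n)) (g : ℕ)
    (W : Finset (Fin n)) (hW : ∀ i ∈ W, g + 1 ≤ deg (left X) i)
    (hW' : ∀ i ∈ W, g + 1 ≤ deg (left X)ᶜ i) :
    (W.filter (fun i => σ i ≠ π i)).card * g ≤ 4 * (bad X σ π ρ).card := by
  classical
  have h1 := card_mul_le_of_deg (A := left X) (B := bad X σ π ρ) σ ρ g W hW (by
    intro e he hb
    simp only [left, bad, mem_filter, mem_univ, true_and, not_not] at he hb
    rcases hb with hb | hb
    · exact hb.2.2
    · exact absurd he hb.1)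
  have h2 := card_mul_le_of_deg (A := (left X)ᶜ) (B := bad X σ π ρ) π ρ g W hW' (by
    intro e he hb
    simp only [left, bad, mem_filter, mem_univ, true_and, not_not, mem_compl] at he hb
    rcases hb with hb | hb
    · exact absurd hb.1 he
    · exact hb.2.2)
  have hsub : W.filter (fun i => σ i ≠ π i) ⊆
      W.filter (fun i => ρ i ≠ σ i) ∪ W.filter (fun i => ρ i ≠ π i) := by
    intro i hi
    simp only [mem_filter, mem_union] at hi ⊢
    by_cases h : ρ i = σ i
    · right
      refine ⟨hi.1, ?_⟩
      rw [h]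
      exact hi.2
    · left
      exact ⟨hi.1, h⟩
  have h3 := (card_le_card hsub).trans (card_union_le _ _)
  calc (W.filter (fun i => σ i ≠ π i)).card * g
      ≤ ((W.filter (fun i => ρ i ≠ σ i)).card + (W.filter (fun i => ρ i ≠ π i)).card) * g :=
        Nat.mul_le_mul_right _ h3
    _ = (W.filter (fun i => ρ i ≠ σ i)).card * g + (W.filter (fun i => ρ i ≠ π i)).card * g := by
        rw [add_mul]
    _ ≤ 2 * (bad X σ π ρ).card + 2 * (bad X σ π ρ).card := Nat.add_le_add h1 h2
    _ = 4 * (bad X σ π ρ).card := by ring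

/-- crossing positions are bad -/
theorem card_diff_le_bad {n : ℕ} (X : Finset (Var n)) (σ ρ : Equiv.Perm (Fin n)) :
    (univ.filter (fun e => ¬ (Sum.inl e ∈ X ↔ Sum.inr (act σ e) ∈ X))).card
      ≤ (bad X σ σ ρ).card := by
  classical
  apply card_le_card
  intro e he
  simp only [bad, mem_filter, mem_univ, true_and] at he ⊢
  intro h
  apply he
  rcases h with ⟨h1, h2, h3⟩ | ⟨h1, h2, h3⟩
  · rw [h3] at h2
    exact ⟨fun _ => h2, fun _ => h1⟩
  · rw [h3] at h2
    exact ⟨fun h => absurd h h1, fun h => absurd h h2⟩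

theorem card_left_le_right_add {n : ℕ} (X : Finset (Var n)) (σ : Equiv.Perm (Fin n)) :
    (left X).card ≤ (right X).card +
      (univ.filter (fun e => ¬ (Sum.inl e ∈ X ↔ Sum.inr (act σ e) ∈ X))).card := by
  classical
  have h1 : left X ⊆ (right X).image (act σ).symm ∪
      univ.filter (fun e => ¬ (Sum.inl e ∈ X ↔ Sum.inr (act σ e) ∈ X)) := by
    intro e he
    simp only [left, mem_filter, mem_univ, true_and, mem_union, mem_image, right] at he ⊢
    by_cases h : Sum.inr (act σ e) ∈ X
    · left
      exact ⟨act σ e, h, by simp⟩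
    · right
      simp [he, h]
  have h2 : ((right X).image (act σ).symm).card ≤ (right X).card := card_image_le
  exact (card_le_card h1).trans ((card_union_le _ _).trans (Nat.add_le_add_right h2 _))

theorem card_right_le_left_add {n : ℕ} (X : Finset (Var n)) (σ : Equiv.Perm (Fin n)) :
    (right X).card ≤ (left X).card +
      (univ.filter (fun e => ¬ (Sum.inl e ∈ X ↔ Sum.inr (act σ e) ∈ X))).card := by
  classical
  have h1 : right X ⊆ (left X).image (act σ) ∪
      (univ.filter (fun e => ¬ (Sum.inl e ∈ X ↔ Sum.inr (act σ e) ∈ X))).image (act σ) := by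
    intro e he
    simp only [left, mem_filter, mem_univ, true_and, mem_union, mem_image, right] at he ⊢
    by_cases h : Sum.inl ((act σ).symm e) ∈ X
    · left
      exact ⟨(act σ).symm e, h, by simp⟩
    · right
      exact ⟨(act σ).symm e, by simp [he, h], by simp⟩
  have h2 : ((left X).image (act σ)).card ≤ (left X).card := card_image_le
  have h3 : ((univ.filter (fun e => ¬ (Sum.inl e ∈ X ↔ Sum.inr (act σ e) ∈ X))).image (act σ)).card
    ≤ (univ.filter (fun e => ¬ (Sum.inl e ∈ X ↔ Sum.inr (act σ e) ∈ X))).card := card_image_le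
  exact (card_le_card h1).trans ((card_union_le _ _).trans (Nat.add_le_add h2 h3))

end Pool.Agent.H526R2.GI
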