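import Mathlib

/-! Boolean circuits in decomposable negation normal form (DNNF). -/

namespace Pool.Agent.H526R2.GI

/-- Negation normal form formulas with variables in `V`. The literal `lit v b` says that the
input bit `v` has the value `b`. -/
inductive Formula (V : Type) : Type
  | lit (v : V) (b : Bool) : Formula V
  | const (b : Bool) : Formula V
  | and (f g : Formula V) : Formula V
  | or (f g : Formula V) : Formula V

namespace Formula

variable {V : Type}

/-- Value of a formula at the input `z`. -/
def eval (z : V → Bool) : Formula V → Bool
  | lit v b => z v == b
  | const b => b
  | and f g => eval z f && eval z g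
  | or f g => eval z f || eval z g

/-- The variables of a formula. -/
def vars [DecidableEq V] : Formula V → Finset V
  | lit v _ => {v}
  | const _ => ∅
  | and f g => vars f ∪ vars g
  | or f g => vars f ∪ vars g

end Formula

/-- The possible gates of a circuit with `s` gates. -/
inductive Gate (V : Type) (s : ℕ) : Type
  | lit (v : V) (b : Bool) : Gate V s
  | const (b : Bool) : Gate V s
  | and (i j : Fin s) : Gate V s
  | or (i j : Fin s) : Gate V s

/-- Circuits in negation normal form with exactly `s` gates: gates are literals, constants, and
fan-in two AND and OR gates; the inputs of a gate are earlier gates. -/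
structure Circuit (V : Type) (s : ℕ) : Type where
  gate : Fin s → Gate V s
  and_lt : ∀ i j k, gate i = Gate.and j k → j < i ∧ k < i
  or_lt : ∀ i j k, gate i = Gate.or j k → j < i ∧ k < i
  out : Fin s

namespace Circuit

variable {V : Type} {s : ℕ}

/-- The formula computed at gate `i` (the circuit unfolded into a tree). -/
def unfold (C : Circuit V s) (i : Fin s) : Formula V :=
  match h : C.gate i with
  | Gate.lit v b => Formula.lit v b
  | Gate.const b => Formula.const b
  | Gate.and j k =>
      have := (C.and_lt i j k h).1
      have := (C.and_lt i j k h).2
      Formula.and (C.unfold j) (C.unfold k)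
  | Gate.or j k =>
      have := (C.or_lt i j k h).1
      have := (C.or_lt i j k h).2
      Formula.or (C.unfold j) (C.unfold k)
termination_by i

/-- The Boolean function computed by the circuit. -/
def eval (C : Circuit V s) (z : V → Bool) : Bool := (C.unfold C.out).eval z

/-- The circuit is decomposable (a DNNF): the two inputs of each AND gate depend on disjoint
sets of variables. -/
def Decomposable [DecidableEq V] (C : Circuit V s) : Prop :=
  ∀ i j k, C.gate i = Gate.and j k → Disjoint (C.unfold j).vars (C.unfold k).vars

end Circuit

end Pool.Agent.H526R2.GI
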