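import Mathlib
import Pool.Agent.H526R2.GI.Agree

/-! In a graph of density bounded away from 0 and 1 many vertices have large degree
both in the graph and in its complement. -/

namespace Pool.Agent.H526R2.GI

open Finset

/-- the pair `{i, j}` for `j ≠ i` -/
def pr {n : ℕ} (i : Fin n) (j : {j : Fin n // j ≠ i}) : Pr n :=
  ⟨s(i, j.1), by simpa using j.2.symm⟩

theorem pr_injective {n : ℕ} (i : Fin n) : Function.Injective (pr i) := by
  intro j j' h
  have h1 : (s(i, j.1) : Sym2 (Fin n)) = s(i, j'.1) := congrArg Subtype.val h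
  rw [Sym2.eq_iff] at h1
  rcases h1 with h1 | h1
  · exact Subtype.ext h1.2
  · exact Subtype.ext (h1.2.trans h1.1)

theorem deg_univ {n : ℕ} (i : Fin n) : deg (univ : Finset (Pr n)) i = n - 1 := by
  classical
  unfold deg
  have h : univ.filter (fun e : Pr n => i ∈ e.1) = univ.image (pr i) := by
    ext e
    simp only [mem_filter, mem_univ, true_and, mem_image]
    constructor
    · intro hi
      obtain ⟨e, he⟩ := e
      obtain ⟨j, rfl⟩ := hi
      refine ⟨⟨j, ?_⟩, rfl⟩
      intro h
      apply he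
      simp [h]
    · rintro ⟨j, rfl⟩
      simp [pr]
  rw [h, card_image_of_injective _ (pr_injective i), card_univ, Fintype.card_subtype_compl,
    Fintype.card_fin]
  simp

theorem deg_add_deg_compl {n : ℕ} (A : Finset (Pr n)) (i : Fin n) :
    deg A i + deg Aᶜ i = n - 1 := by
  classical
  rw [← deg_univ i]
  unfold deg
  rw [← card_union_of_disjoint]
  · congr 1
    ext e
    simp only [mem_union, mem_filter, mem_compl, mem_univ, true_and]
    tauto
  · rw [disjoint_left]
    intro e he he'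
    simp only [mem_filter, mem_compl] at he he'
    exact he'.1 he.1

theorem card_cross {n : ℕ} (A : Finset (Pr n)) (H L : Finset (Fin n)) (g : ℕ)
    (hL : ∀ i ∈ L, deg A i ≤ g) :
    ((H ×ˢ L).filter (fun p => ∃ e ∈ A, e.1 = s(p.1, p.2))).card ≤ L.card * g := by
  classical
  have h0 : (H ×ˢ L).filter (fun p => ∃ e ∈ A, e.1 = s(p.1, p.2)) ⊆
      L.biUnion (fun l => (H.filter (fun h => ∃ e ∈ A, e.1 = s(h, l))).image (fun h => (h, l))) := by
    rintro ⟨h, l⟩ hp
    simp only [mem_filter, mem_product, mem_biUnion, mem_image] at hp ⊢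
    exact ⟨l, hp.1.2, h, ⟨hp.1.1, hp.2⟩, rfl⟩
  have h1 : ∀ l ∈ L, ((H.filter (fun h => ∃ e ∈ A, e.1 = s(h, l))).image (fun h => (h, l))).card ≤ g := by
    intro l hl
    refine card_image_le.trans (le_trans ?_ (hL l hl))
    unfold deg
    have h2 : (H.filter (fun h => ∃ e ∈ A, e.1 = s(h, l))).card =
        ((H.filter (fun h => ∃ e ∈ A, e.1 = s(h, l))).image (fun h => (s(h, l) : Sym2 (Fin n)))).card := by
      rw [card_image_of_injective]
      intro a b hab
      have hab' : (s(a, l) : Sym2 (Fin n)) = s(b, l) := hab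
      rw [Sym2.eq_iff] at hab'
      rcases hab' with h | h
      · exact h.1
      · exact h.1.trans h.2
    rw [h2]
    have h3 : ((H.filter (fun h => ∃ e ∈ A, e.1 = s(h, l))).image (fun h => (s(h, l) : Sym2 (Fin n))))
        ⊆ (A.filter (fun e => l ∈ e.1)).image Subtype.val := by
      intro x hx
      simp only [mem_image, mem_filter] at hx ⊢
      obtain ⟨h, ⟨_, e, heA, he⟩, rfl⟩ := hx
      refine ⟨e, ⟨heA, ?_⟩, he⟩
      rw [he]
      simp
    exact (card_le_card h3).trans card_image_le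
  calc _ ≤ _ := card_le_card h0
    _ ≤ ∑ l ∈ L, _ := card_biUnion_le
    _ ≤ ∑ l ∈ L, g := sum_le_sum h1
    _ = L.card * g := by rw [sum_const, smul_eq_mul]

theorem card_mul_card_le_of_low {n : ℕ} (A : Finset (Pr n)) (H L : Finset (Fin n)) (g : ℕ)
    (hHL : Disjoint H L) (hL : ∀ i ∈ L, deg A i ≤ g) (hH : ∀ i ∈ H, deg Aᶜ i ≤ g) :
    H.card * L.card ≤ g * (H.card + L.card) := by
  classical
  have h1 := card_cross A H L g hL
  have h2 := card_cross Aᶜ L H g hH
  have h3 : (H ×ˢ L) ⊆ ((H ×ˢ L).filter (fun p => ∃ e ∈ A, e.1 = s(p.1, p.2))) ∪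
      (((L ×ˢ H).filter (fun p => ∃ e ∈ Aᶜ, e.1 = s(p.1, p.2))).image Prod.swap) := by
    rintro ⟨h, l⟩ hp
    have hp' := mem_product.1 hp
    have hne : h ≠ l := by
      rintro rfl
      exact disjoint_left.1 hHL hp'.1 hp'.2
    by_cases hA : (⟨s(h, l), by simpa using hne⟩ : Pr n) ∈ A
    · rw [mem_union]
      left
      rw [mem_filter]
      exact ⟨hp, _, hA, rfl⟩
    · rw [mem_union]
      right
      rw [mem_image]
      refine ⟨(l, h), ?_, rfl⟩
      rw [mem_filter]
      refine ⟨mem_product.2 ⟨hp'.2, hp'.1⟩, _, mem_compl.2 hA, ?_⟩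
      exact Sym2.eq_swap
  have h4 := (card_le_card h3).trans (card_union_le _ _)
  rw [card_product] at h4
  have h5 : (((L ×ˢ H).filter (fun p => ∃ e ∈ Aᶜ, e.1 = s(p.1, p.2))).image Prod.swap).card
    ≤ ((L ×ˢ H).filter (fun p => ∃ e ∈ Aᶜ, e.1 = s(p.1, p.2))).card := card_image_le
  nlinarith

theorem numeric {n g w h l a a' d : ℕ} (hn : 1000 ≤ n) (hsum : n ≤ h + l + w) (hhl : h + l ≤ n)
    (hg : 100 * g ≤ n) (hd : 1000 * d ≤ n ^ 2)
    (h1 : 2 * a ≤ l * g + (w + h) * n) (h2 : 2 * a' ≤ h * g + (w + l) * n)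
    (h3 : h * l ≤ g * (h + l)) (h4 : n * (n - 1) ≤ 6 * a + d) (h5 : n * (n - 1) ≤ 6 * a' + d) :
    n ≤ 10 * w := by
  by_contra hcon
  push Not at hcon
  have hn1 : 1 ≤ n := by omega
  zify [hn1] at *
  have e1 : (l : ℤ) * g ≤ n * g := by nlinarith
  have e2 : (h : ℤ) * g ≤ n * g := by nlinarith
  have e3 : 100 * ((n : ℤ) * g) ≤ n ^ 2 := by nlinarith
  -- lower bounds for h and l
  have hh : 22 * (n : ℤ) ≤ 100 * h := by
    by_contra hc
    push Not at hc
    have : 100 * ((w + h) * (n : ℤ)) ≤ 32 * n * n := by nlinarith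
    nlinarith
  have hl : 22 * (n : ℤ) ≤ 100 * l := by
    by_contra hc
    push Not at hc
    have : 100 * ((w + l) * (n : ℤ)) ≤ 32 * n * n := by nlinarith
    nlinarith
  have e4 : 484 * (n : ℤ) ^ 2 ≤ 10000 * (h * l) := by nlinarith
  have e5 : 100 * ((g : ℤ) * (h + l)) ≤ n ^ 2 := by nlinarith
  nlinarith

theorem exists_many {n : ℕ} (A : Finset (Pr n)) (g d : ℕ) (hn : 1000 ≤ n) (hg : 100 * g ≤ n)
    (hd : 1000 * d ≤ n ^ 2) (h4 : n * (n - 1) ≤ 6 * A.card + d)
    (h5 : n * (n - 1) ≤ 6 * Aᶜ.card + d) :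
    n ≤ 10 * (univ.filter (fun i => g + 1 ≤ deg A i ∧ g + 1 ≤ deg Aᶜ i)).card := by
  classical
  set W := univ.filter (fun i => g + 1 ≤ deg A i ∧ g + 1 ≤ deg Aᶜ i) with hW
  set L := univ.filter (fun i => deg A i ≤ g) with hL
  set H := univ.filter (fun i => deg Aᶜ i ≤ g) with hH
  have hHL : Disjoint H L := by
    rw [disjoint_left]
    intro i hi hi'
    simp only [hH, hL, mem_filter, mem_univ, true_and] at hi hi'
    have := deg_add_deg_compl A i
    omega
  have hWL : Disjoint W L := by
    rw [disjoint_left]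
    intro i hi hi'
    simp only [hW, hL, mem_filter, mem_univ, true_and] at hi hi'
    omega
  have hWH : Disjoint W H := by
    rw [disjoint_left]
    intro i hi hi'
    simp only [hW, hH, mem_filter, mem_univ, true_and] at hi hi'
    omega
  have huniv : (univ : Finset (Fin n)) = (H ∪ L) ∪ W := by
    ext i
    simp only [mem_univ, true_iff, mem_union, hH, hL, hW, mem_filter, true_and]
    omega
  have hWHL : Disjoint (H ∪ L) W := by
    rw [disjoint_union_left]
    exact ⟨hWH.symm, hWL.symm⟩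
  have hcard : n = H.card + L.card + W.card := by
    have := congrArg Finset.card huniv
    rw [card_univ, Fintype.card_fin, card_union_of_disjoint hWHL, card_union_of_disjoint hHL] at this
    exact this
  have hdn : ∀ (B : Finset (Pr n)) (i : Fin n), deg B i ≤ n := by
    intro B i
    have := deg_add_deg_compl B i
    omega
  have h1 : 2 * A.card ≤ L.card * g + (W.card + H.card) * n := by
    rw [← sum_deg, huniv, sum_union hWHL, sum_union hHL]
    have a1 : ∑ i ∈ L, deg A i ≤ L.card * g := by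
      rw [← smul_eq_mul, ← sum_const]
      apply sum_le_sum
      intro i hi
      simpa [hL] using hi
    have a2 : ∑ i ∈ H, deg A i ≤ H.card * n := by
      rw [← smul_eq_mul, ← sum_const]
      apply sum_le_sum
      intro i _
      exact hdn A i
    have a3 : ∑ i ∈ W, deg A i ≤ W.card * n := by
      rw [← smul_eq_mul, ← sum_const]
      apply sum_le_sum
      intro i _
      exact hdn A i
    nlinarith
  have h2 : 2 * Aᶜ.card ≤ H.card * g + (W.card + L.card) * n := by
    rw [← sum_deg, huniv, sum_union hWHL, sum_union hHL]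
    have a1 : ∑ i ∈ H, deg Aᶜ i ≤ H.card * g := by
      rw [← smul_eq_mul, ← sum_const]
      apply sum_le_sum
      intro i hi
      simpa [hH] using hi
    have a2 : ∑ i ∈ L, deg Aᶜ i ≤ L.card * n := by
      rw [← smul_eq_mul, ← sum_const]
      apply sum_le_sum
      intro i _
      exact hdn Aᶜ i
    have a3 : ∑ i ∈ W, deg Aᶜ i ≤ W.card * n := by
      rw [← smul_eq_mul, ← sum_const]
      apply sum_le_sum
      intro i _
      exact hdn Aᶜ i
    nlinarith
  have h3 := card_mul_card_le_of_low A H L g hHL (by simp [hL]) (by simp [hH])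
  exact numeric hn (by omega) (by omega) hg hd h1 h2 h3 h4 h5

end Pool.Agent.H526R2.GI
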