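import Mathlib
import Pool.Agent.H526R2.GI.Degree

/-! The measure of a balanced rectangle of isomorphic pairs. -/

namespace Pool.Agent.H526R2.GI

open Finset

theorem card_fix {n : ℕ} (S : Finset (Fin n)) :
    (univ.filter (fun π : Equiv.Perm (Fin n) => ∀ i ∈ S, π i = i)).card = (n - S.card).factorial := by
  classical
  have h1 := Fintype.card_congr (Equiv.Perm.subtypeEquivSubtypePerm (fun i : Fin n => i ∉ S))
  rw [Fintype.card_perm, Fintype.card_subtype_compl, Fintype.card_fin, Fintype.card_coe] at h1
  rw [h1, Fintype.card_subtype]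
  congr 1
  ext π
  simp

theorem factorial_mul_card_agree_le {n : ℕ} (σ : Equiv.Perm (Fin n)) (m : ℕ) (hm : m ≤ n) :
    m.factorial * (univ.filter (fun π : Equiv.Perm (Fin n) =>
      m ≤ (univ.filter (fun i => σ i = π i)).card)).card ≤ n.factorial := by
  classical
  have h1 : (univ.filter (fun π : Equiv.Perm (Fin n) =>
      m ≤ (univ.filter (fun i => σ i = π i)).card)).card ≤
      ((powersetCard m (univ : Finset (Fin n))).biUnion
        (fun S => univ.filter (fun π : Equiv.Perm (Fin n) => ∀ i ∈ S, π i = i))).card := by
    refine card_le_card_of_injOn (fun π => σ⁻¹ * π) ?_ ?_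
    · intro π hπ
      simp only [coe_filter, mem_univ, true_and, Set.mem_ofPred_eq] at hπ
      obtain ⟨S, hS, hSc⟩ := exists_subset_card_eq hπ
      rw [mem_coe, mem_biUnion]
      refine ⟨S, ?_, ?_⟩
      · rw [mem_powersetCard]
        exact ⟨subset_univ _, hSc⟩
      · rw [mem_filter]
        refine ⟨mem_univ _, ?_⟩
        intro i hi
        have := hS hi
        simp only [mem_filter, mem_univ, true_and] at this
        simp [← this]
    · intro a _ b _ h
      exact mul_left_cancel h
  have h2 : ((powersetCard m (univ : Finset (Fin n))).biUnion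
        (fun S => univ.filter (fun π : Equiv.Perm (Fin n) => ∀ i ∈ S, π i = i))).card ≤
        n.choose m * (n - m).factorial := by
    refine card_biUnion_le.trans ?_
    rw [sum_congr rfl (g := fun _ => (n - m).factorial)]
    · rw [sum_const, card_powersetCard, card_univ, Fintype.card_fin, smul_eq_mul]
    · intro S hS
      rw [card_fix, (mem_powersetCard.1 hS).2]
  calc _ ≤ m.factorial * (n.choose m * (n - m).factorial) :=
        Nat.mul_le_mul_left _ (h1.trans h2)
    _ = n.choose m * m.factorial * (n - m).factorial := by ring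
    _ = n.factorial := Nat.choose_mul_factorial_mul_factorial hm

theorem card_Pr (n : ℕ) : 2 * Fintype.card (Pr n) = n * (n - 1) := by
  have h : Fintype.card (Pr n) = n.choose 2 := by
    have := Sym2.card_subtype_not_diag (α := Fin n)
    rw [Fintype.card_fin] at this
    convert this
  rw [h, Nat.choose_two_right, Nat.mul_div_cancel']
  rcases n with _ | n
  · simp
  · simp only [Nat.add_sub_cancel]
    have := Nat.even_mul_succ_self n
    rw [mul_comm] at this
    exact this.two_dvd

theorem card_Var (n : ℕ) : Fintype.card (Var n) = 2 * Fintype.card (Pr n) := by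
  rw [Fintype.card_sum]
  ring

open Classical in
/-- The graphs `x` with `(x, π x)` in `R`. -/
noncomputable def slice {n : ℕ} (R : (Var n → Bool) → Prop) (π : Equiv.Perm (Fin n)) :
    Finset (Pr n → Bool) := univ.filter (fun x => R (inp π x))

theorem slice_card_le {n : ℕ} (R : (Var n → Bool) → Prop) (π : Equiv.Perm (Fin n)) :
    (slice R π).card ≤ 2 ^ Fintype.card (Pr n) := by
  have := card_le_univ (slice R π)
  rwa [Fintype.card_fun, Fintype.card_bool] at this

theorem exists_few_bad {n q : ℕ} (X : Finset (Var n)) (R : (Var n → Bool) → Prop)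
    (hR : ∀ z z', R z → R z' → IsIso (mix X z z'))
    (hq1 : n.factorial < 2 ^ q) (hq2 : q ≤ Fintype.card (Pr n))
    (σ π : Equiv.Perm (Fin n)) (hσ : 2 ^ (Fintype.card (Pr n) - q) ≤ (slice R σ).card)
    (hπ : 2 ^ (Fintype.card (Pr n) - q) ≤ (slice R π).card) :
    ∃ ρ, (bad X σ π ρ).card < 9 * q := by
  classical
  by_contra hcon
  push Not at hcon
  have h1 := card_mul_card_le X σ π (slice R σ) (slice R π) (by
    intro x hx x' hx'
    simp only [slice, mem_filter, mem_univ, true_and] at hx hx'
    exact hR _ _ hx hx') (3 * q) (by intro ρ; have := hcon ρ; omega)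
  rw [card_Var] at h1
  set N := Fintype.card (Pr n)
  have h2 : 2 ^ (N - q) * 2 ^ (N - q) * 2 ^ (3 * q) ≤ n.factorial * 2 ^ (2 * N) :=
    (Nat.mul_le_mul_right _ (Nat.mul_le_mul hσ hπ)).trans h1
  have h3 : 2 ^ (N - q) * 2 ^ (N - q) * 2 ^ (3 * q) = 2 ^ q * 2 ^ (2 * N) := by
    rw [← pow_add, ← pow_add, ← pow_add]
    congr 1
    omega
  rw [h3] at h2
  have h4 := Nat.le_of_mul_le_mul_right h2 (by positivity)
  omega

theorem rect_bound {n q m : ℕ} (X : Finset (Var n)) (R : (Var n → Bool) → Prop)
    (hR : ∀ z z', R z → R z' → IsIso (mix X z z')) (hn : 1000 ≤ n)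
    (hX1 : 2 * Fintype.card (Pr n) ≤ 3 * X.card) (hX2 : 3 * X.card ≤ 4 * Fintype.card (Pr n))
    (hq1 : n.factorial < 2 ^ q) (hq2 : 100000 * q ≤ n ^ 2)
    (hm : 20 * m ≤ n) (hmq : m.factorial ≤ 2 ^ q) :
    m.factorial * ∑ π, (slice R π).card ≤ 2 * (2 ^ Fintype.card (Pr n) * n.factorial) := by
  classical
  have hN := card_Pr n
  have hqN : q ≤ Fintype.card (Pr n) := by
    have : n * 2 ≤ n * (n - 1) * 2 := by
      have : 1 ≤ n - 1 := by omega
      nlinarith
    have h2 : n ^ 2 ≤ 2 * (n * (n - 1)) := by
      obtain ⟨k, rfl⟩ : ∃ k, n = k + 2 := ⟨n - 2, by omega⟩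
      have : k + 2 - 1 = k + 1 := by omega
      rw [this]
      nlinarith
    omega
  set N := Fintype.card (Pr n) with hNdef
  by_cases hbig : ∃ σ, 2 ^ (N - q) ≤ (slice R σ).card
  · obtain ⟨σ, hσ⟩ := hbig
    -- degrees
    obtain ⟨ρ0, hρ0⟩ := exists_few_bad X R hR hq1 hqN σ σ hσ hσ
    have hc := (card_diff_le_bad X σ ρ0).trans_lt hρ0
    have hl1 := card_left_le_right_add X σ
    have hl2 := card_right_le_left_add X σ
    have hlr := card_left_add_card_right X
    have hcompl : (left X)ᶜ.card = N - (left X).card := by
      rw [card_compl, hNdef]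
    have hleN : (left X).card ≤ N := card_le_univ _
    have hW := exists_many (left X) (n / 100) (27 * q) hn (by omega) (by omega)
      (by rw [← hN]; omega) (by rw [← hN, hcompl]; omega)
    set W := univ.filter (fun i => n / 100 + 1 ≤ deg (left X) i ∧ n / 100 + 1 ≤ deg (left X)ᶜ i)
      with hWdef
    have hagree : ∀ π, 2 ^ (N - q) ≤ (slice R π).card →
        m ≤ (univ.filter (fun i => σ i = π i)).card := by
      intro π hπ
      obtain ⟨ρ, hρ⟩ := exists_few_bad X R hR hq1 hqN σ π hσ hπ
      have h1 := agree_of_bad X σ π ρ (n / 100) W (by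
        intro i hi
        simp only [hWdef, mem_filter, mem_univ, true_and] at hi
        exact hi.1) (by
        intro i hi
        simp only [hWdef, mem_filter, mem_univ, true_and] at hi
        exact hi.2)
      have h2 : W.card ≤ (W.filter (fun i => σ i ≠ π i)).card +
          (univ.filter (fun i => σ i = π i)).card := by
        have : W ⊆ (W.filter (fun i => σ i ≠ π i)) ∪ (univ.filter (fun i => σ i = π i)) := by
          intro i hi
          simp only [mem_union, mem_filter, mem_univ, true_and]
          by_cases h : σ i = π i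
          · right; exact h
          · left; exact ⟨hi, h⟩
        exact (card_le_card this).trans (card_union_le _ _)
      set b := (W.filter (fun i => σ i ≠ π i)).card
      -- b * (n/100) ≤ 36 q
      have h3 : b * (n / 100) ≤ 36 * q := by omega
      have h4 : 20 * b ≤ n := by
        by_contra hb
        push Not at hb
        have h5 : n ≤ 100 * (n / 100) + 99 := by omega
        have h6 : 10 * (n / 100) * 11 ≥ n := by omega
        have h7 : n * (10 * (n / 100) * 11) ≤ 20 * b * (10 * (n / 100) * 11) :=
          Nat.mul_le_mul_right _ hb.le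
        have h8 : n * n ≤ n * (10 * (n / 100) * 11) := Nat.mul_le_mul_left _ h6
        have h9 : 20 * b * (10 * (n / 100) * 11) = 2200 * (b * (n / 100)) := by ring
        have h10 : n ^ 2 ≤ 2200 * (36 * q) := by
          rw [pow_two]
          omega
        have : 0 < q := by
          rcases Nat.eq_zero_or_pos q with h | h
          · rw [h] at hq1
            have := Nat.factorial_pos n
            simp at hq1
            omega
          · exact h
        omega
      omega
    have hcount := factorial_mul_card_agree_le σ m (by omega)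
    set Big := univ.filter (fun π : Equiv.Perm (Fin n) =>
      m ≤ (univ.filter (fun i => σ i = π i)).card) with hBig
    have hsum : ∑ π, (slice R π).card ≤ Big.card * 2 ^ N + n.factorial * 2 ^ (N - q) := by
      rw [← sum_filter_add_sum_filter_not univ
        (fun π : Equiv.Perm (Fin n) => m ≤ (univ.filter (fun i => σ i = π i)).card)]
      apply Nat.add_le_add
      · calc _ ≤ ∑ π ∈ Big, 2 ^ N := sum_le_sum (fun π _ => slice_card_le R π)
          _ = Big.card * 2 ^ N := by rw [sum_const, smul_eq_mul]
      · calc _ ≤ ∑ π ∈ univ.filter (fun π : Equiv.Perm (Fin n) =>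
              ¬ m ≤ (univ.filter (fun i => σ i = π i)).card), 2 ^ (N - q) := by
              apply sum_le_sum
              intro π hπ
              simp only [mem_filter, mem_univ, true_and] at hπ
              by_contra hcon
              push Not at hcon
              exact hπ (hagree π hcon.le)
          _ ≤ ∑ π : Equiv.Perm (Fin n), 2 ^ (N - q) := sum_le_sum_of_subset (subset_univ _)
          _ = n.factorial * 2 ^ (N - q) := by
              rw [sum_const, card_univ, Fintype.card_perm, Fintype.card_fin, smul_eq_mul]
    calc m.factorial * ∑ π, (slice R π).card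
        ≤ m.factorial * (Big.card * 2 ^ N + n.factorial * 2 ^ (N - q)) :=
          Nat.mul_le_mul_left _ hsum
      _ = (m.factorial * Big.card) * 2 ^ N + m.factorial * (n.factorial * 2 ^ (N - q)) := by ring
      _ ≤ n.factorial * 2 ^ N + 2 ^ q * (n.factorial * 2 ^ (N - q)) :=
          Nat.add_le_add (Nat.mul_le_mul_right _ hcount) (Nat.mul_le_mul_right _ hmq)
      _ = 2 * (2 ^ N * n.factorial) := by
          have : 2 ^ q * (n.factorial * 2 ^ (N - q)) = n.factorial * 2 ^ N := by
            rw [mul_left_comm, ← pow_add]
            congr 2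
            omega
          rw [this]
          ring
  · push Not at hbig
    have hsum : ∑ π, (slice R π).card ≤ n.factorial * 2 ^ (N - q) := by
      calc _ ≤ ∑ π : Equiv.Perm (Fin n), 2 ^ (N - q) := sum_le_sum (fun π _ => (hbig π).le)
        _ = n.factorial * 2 ^ (N - q) := by
            rw [sum_const, card_univ, Fintype.card_perm, Fintype.card_fin, smul_eq_mul]
    calc m.factorial * ∑ π, (slice R π).card
        ≤ 2 ^ q * (n.factorial * 2 ^ (N - q)) := Nat.mul_le_mul hmq hsum
      _ = 2 ^ N * n.factorial := by
          rw [mul_left_comm, ← pow_add]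
          have : q + (N - q) = N := by omega
          rw [this]
          ring
      _ ≤ _ := by omega

end Pool.Agent.H526R2.GI
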