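import Mathlib
import Pool.Agent.H526R2.GI.Dnnf
import Pool.Agent.H526R2.GI.Rect

/-! From a DNNF circuit for graph isomorphism to few balanced rectangles. -/

namespace Pool.Agent.H526R2.GI

open Finset

namespace Formula

variable {V : Type} [DecidableEq V]

/-- `z` has an accepting proof tree of `f` that mentions all variables of `f`. -/
def Full (z : V → Bool) : Formula V → Prop
  | lit v b => z v = b
  | const b => b = true
  | and f g => Full z f ∧ Full z g
  | or f g => (Full z f ∧ g.vars ⊆ f.vars) ∨ (Full z g ∧ f.vars ⊆ g.vars)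

/-- decomposable formulas -/
def Dec : Formula V → Prop
  | lit _ _ => True
  | const _ => True
  | and f g => Disjoint f.vars g.vars ∧ Dec f ∧ Dec g
  | or f g => Dec f ∧ Dec g

/-- `Ctx z f h`: the formula `h` occurs in `f` and everything outside of `h` is fully
satisfied by `z`. -/
inductive Ctx (z : V → Bool) : Formula V → Formula V → Prop
  | refl (f) : Ctx z f f
  | andl (f g h) : Ctx z f h → Full z g → Ctx z (and f g) h
  | andr (f g h) : Ctx z g h → Full z f → Ctx z (and f g) h
  | orl (f g h) : Ctx z f h → Ctx z (or f g) h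
  | orr (f g h) : Ctx z g h → Ctx z (or f g) h

theorem full_congr {z z' : V → Bool} (f : Formula V) (h : ∀ v ∈ f.vars, z' v = z v)
    (hf : Full z f) : Full z' f := by
  induction f with
  | lit v b =>
    simp only [Full, vars] at *
    rw [h v (by simp), hf]
  | const b => exact hf
  | and f g ihf ihg =>
    simp only [Full, vars] at *
    exact ⟨ihf (fun v hv => h v (mem_union_left _ hv)) hf.1,
      ihg (fun v hv => h v (mem_union_right _ hv)) hf.2⟩
  | or f g ihf ihg =>
    simp only [Full, vars] at *
    rcases hf with hf | hf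
    · left; exact ⟨ihf (fun v hv => h v (mem_union_left _ hv)) hf.1, hf.2⟩
    · right; exact ⟨ihg (fun v hv => h v (mem_union_right _ hv)) hf.1, hf.2⟩

theorem eval_of_full {z : V → Bool} (f : Formula V) (hf : Full z f) : f.eval z = true := by
  induction f with
  | lit v b => simpa [Full, eval] using hf
  | const b => exact hf
  | and f g ihf ihg =>
    simp only [Full, eval] at *
    rw [ihf hf.1, ihg hf.2]; rfl
  | or f g ihf ihg =>
    simp only [Full, eval] at *
    rcases hf with hf | hf
    · rw [ihf hf.1]; rfl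
    · rw [ihg hf.1]; simp

theorem exists_cert {z : V → Bool} (f : Formula V) (hd : Dec f) (hf : f.eval z = true) :
    ∃ S ⊆ f.vars, (∀ z' : V → Bool, (∀ v ∈ S, z' v = z v) → f.eval z' = true) ∧
      (S = f.vars → Full z f) := by
  induction f with
  | lit v b =>
    refine ⟨{v}, by simp [vars], ?_, ?_⟩
    · intro z' h
      simp only [eval] at *
      rw [h v (by simp), hf]
    · intro _
      simpa [eval, Full] using hf
  | const b =>
    exact ⟨∅, by simp, fun _ _ => hf, fun _ => hf⟩
  | and f g ihf ihg =>
    simp only [Dec, eval, Bool.and_eq_true] at hd hf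
    obtain ⟨S, hS1, hS2, hS3⟩ := ihf hd.2.1 hf.1
    obtain ⟨T, hT1, hT2, hT3⟩ := ihg hd.2.2 hf.2
    refine ⟨S ∪ T, union_subset_union hS1 hT1, ?_, ?_⟩
    · intro z' h
      simp only [eval]
      rw [hS2 z' (fun v hv => h v (mem_union_left _ hv)),
        hT2 z' (fun v hv => h v (mem_union_right _ hv))]
      rfl
    · intro h
      simp only [vars] at h
      simp only [Full]
      constructor
      · apply hS3
        apply subset_antisymm hS1
        intro v hv
        have : v ∈ S ∪ T := by rw [h]; exact mem_union_left _ hv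
        rcases mem_union.1 this with h1 | h1
        · exact h1
        · exact absurd (hT1 h1) (disjoint_left.1 hd.1 hv)
      · apply hT3
        apply subset_antisymm hT1
        intro v hv
        have : v ∈ S ∪ T := by rw [h]; exact mem_union_right _ hv
        rcases mem_union.1 this with h1 | h1
        · exact absurd hv (disjoint_left.1 hd.1 (hS1 h1))
        · exact h1
  | or f g ihf ihg =>
    simp only [Dec, eval, Bool.or_eq_true] at hd hf
    rcases hf with hf | hf
    · obtain ⟨S, hS1, hS2, hS3⟩ := ihf hd.1 hf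
      refine ⟨S, hS1.trans subset_union_left, ?_, ?_⟩
      · intro z' h
        simp only [eval]
        rw [hS2 z' h]
        rfl
      · intro h
        simp only [vars] at h
        simp only [Full]
        left
        have h1 : g.vars ⊆ f.vars := fun v hv => hS1 (by rw [h]; exact mem_union_right _ hv)
        exact ⟨hS3 (by rw [h, union_eq_left.2 h1]), h1⟩
    · obtain ⟨S, hS1, hS2, hS3⟩ := ihg hd.2 hf
      refine ⟨S, hS1.trans subset_union_right, ?_, ?_⟩
      · intro z' h
        simp only [eval]
        rw [hS2 z' h]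
        simp
      · intro h
        simp only [vars] at h
        simp only [Full]
        right
        have h1 : f.vars ⊆ g.vars := fun v hv => hS1 (by rw [h]; exact mem_union_left _ hv)
        exact ⟨hS3 (by rw [h, union_eq_right.2 h1]), h1⟩

theorem Ctx.vars_subset {z : V → Bool} {f h : Formula V} (c : Ctx z f h) : h.vars ⊆ f.vars := by
  induction c with
  | refl f => exact subset_rfl
  | andl f g h _ _ ih => exact ih.trans subset_union_left
  | andr f g h _ _ ih => exact ih.trans subset_union_right
  | orl f g h _ ih => exact ih.trans subset_union_left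
  | orr f g h _ ih => exact ih.trans subset_union_right

theorem Ctx.eval_mix {z z' : V → Bool} {f h : Formula V} (c : Ctx z f h) (hd : Dec f)
    (hh : Full z' h) : f.eval (mix h.vars z' z) = true := by
  induction c with
  | refl f =>
    apply eval_of_full
    exact full_congr f (fun v hv => by simp [mix, hv]) hh
  | andl f g h c hg ih =>
    simp only [Dec] at hd
    simp only [eval]
    rw [ih hd.2.1 hh, eval_of_full g (full_congr g (fun v hv => ?_) hg)]
    · rfl
    · have : v ∉ h.vars := fun h' => disjoint_left.1 hd.1 (c.vars_subset h') hv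
      simp [mix, this]
  | andr f g h c hf ih =>
    simp only [Dec] at hd
    simp only [eval]
    rw [ih hd.2.2 hh, eval_of_full f (full_congr f (fun v hv => ?_) hf)]
    · rfl
    · have : v ∉ h.vars := fun h' => disjoint_left.1 hd.1 hv (c.vars_subset h')
      simp [mix, this]
  | orl f g h _ ih =>
    simp only [Dec] at hd
    simp only [eval]
    rw [ih hd.1 hh]
    rfl
  | orr f g h _ ih =>
    simp only [Dec] at hd
    simp only [eval]
    rw [ih hd.2 hh]
    simp

theorem exists_balanced {z : V → Bool} (M : ℕ) (hM : 2 ≤ M) (f : Formula V) (hd : Dec f)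
    (hf : Full z f) (hv : M ≤ 3 * f.vars.card) :
    ∃ h, Ctx z f h ∧ Full z h ∧ M ≤ 3 * h.vars.card ∧ 3 * h.vars.card ≤ 2 * M := by
  induction f with
  | lit v b =>
    refine ⟨_, Ctx.refl _, hf, hv, ?_⟩
    simp only [vars, card_singleton]
    omega
  | const b =>
    simp [vars] at hv
    omega
  | and f g ihf ihg =>
    by_cases hc : 3 * (and f g).vars.card ≤ 2 * M
    · exact ⟨_, Ctx.refl _, hf, hv, hc⟩
    · simp only [Dec] at hd
      simp only [vars] at hc
      rw [card_union_of_disjoint hd.1] at hc
      simp only [Full] at hf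
      by_cases h1 : M ≤ 3 * f.vars.card
      · obtain ⟨h, c, h2, h3, h4⟩ := ihf hd.2.1 hf.1 h1
        exact ⟨h, Ctx.andl _ _ _ c hf.2, h2, h3, h4⟩
      · obtain ⟨h, c, h2, h3, h4⟩ := ihg hd.2.2 hf.2 (by omega)
        exact ⟨h, Ctx.andr _ _ _ c hf.1, h2, h3, h4⟩
  | or f g ihf ihg =>
    simp only [Dec] at hd
    simp only [vars] at hv
    simp only [Full] at hf
    rcases hf with hf | hf
    · rw [union_eq_left.2 hf.2] at hv
      obtain ⟨h, c, h2, h3, h4⟩ := ihf hd.1 hf.1 hv
      exact ⟨h, Ctx.orl _ _ _ c, h2, h3, h4⟩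
    · rw [union_eq_right.2 hf.2] at hv
      obtain ⟨h, c, h2, h3, h4⟩ := ihg hd.2 hf.1 hv
      exact ⟨h, Ctx.orr _ _ _ c, h2, h3, h4⟩

end Formula

namespace Circuit

variable {V : Type} {s : ℕ}

theorem unfold_eq_and {C : Circuit V s} {i : Fin s} {f g : Formula V}
    (h : C.unfold i = Formula.and f g) :
    ∃ j k, C.gate i = Gate.and j k ∧ f = C.unfold j ∧ g = C.unfold k := by
  rw [unfold] at h
  split at h
  · cases h
  · cases h
  · rename_i j k hjk
    injection h with h1 h2
    exact ⟨j, k, hjk, h1.symm, h2.symm⟩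
  · cases h

theorem unfold_eq_or {C : Circuit V s} {i : Fin s} {f g : Formula V}
    (h : C.unfold i = Formula.or f g) :
    ∃ j k, C.gate i = Gate.or j k ∧ f = C.unfold j ∧ g = C.unfold k := by
  rw [unfold] at h
  split at h
  · cases h
  · cases h
  · cases h
  · rename_i j k hjk
    injection h with h1 h2
    exact ⟨j, k, hjk, h1.symm, h2.symm⟩

theorem dec_unfold [DecidableEq V] {C : Circuit V s} (hC : C.Decomposable) (i : Fin s) :
    (C.unfold i).Dec := by
  induction i using WellFoundedLT.induction with
  | _ i ih =>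
    rcases hg : C.unfold i with ⟨v, b⟩ | b | ⟨f, g⟩ | ⟨f, g⟩
    · trivial
    · trivial
    · obtain ⟨j, k, h1, rfl, rfl⟩ := unfold_eq_and hg
      exact ⟨hC i j k h1, ih j (C.and_lt i j k h1).1, ih k (C.and_lt i j k h1).2⟩
    · obtain ⟨j, k, h1, rfl, rfl⟩ := unfold_eq_or hg
      exact ⟨ih j (C.or_lt i j k h1).1, ih k (C.or_lt i j k h1).2⟩

theorem ctx_unfold [DecidableEq V] {C : Circuit V s} {z : V → Bool} {f h : Formula V}
    (c : Formula.Ctx z f h) : ∀ i, f = C.unfold i → ∃ j, h = C.unfold j := by
  induction c with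
  | refl f => exact fun i hi => ⟨i, hi⟩
  | andl f g h _ _ ih =>
    intro i hi
    obtain ⟨j, k, _, h2, _⟩ := unfold_eq_and hi.symm
    exact ih j h2
  | andr f g h _ _ ih =>
    intro i hi
    obtain ⟨j, k, _, _, h2⟩ := unfold_eq_and hi.symm
    exact ih k h2
  | orl f g h _ ih =>
    intro i hi
    obtain ⟨j, k, _, h2, _⟩ := unfold_eq_or hi.symm
    exact ih j h2
  | orr f g h _ ih =>
    intro i hi
    obtain ⟨j, k, _, _, h2⟩ := unfold_eq_or hi.symm
    exact ih k h2

end Circuit

/-- Isomorphic graphs have equally many edges. -/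
theorem even_of_isIso {n : ℕ} {z : Var n → Bool} (h : IsIso z) :
    Even (∑ v, (z v).toNat) := by
  obtain ⟨π, hπ⟩ := (isIso_iff z).1 h
  rw [Fintype.sum_sum_type]
  have : ∑ e : Pr n, (z (Sum.inr e)).toNat = ∑ e : Pr n, (z (Sum.inl e)).toNat := by
    rw [← Equiv.sum_comp (act π)]
    exact sum_congr rfl (fun e _ => by rw [hπ e])
  rw [this]
  exact ⟨_, rfl⟩

theorem not_isIso_flip {n : ℕ} {z z' : Var n → Bool} (h : IsIso z) (v : Var n)
    (h1 : z' v = !z v) (h2 : ∀ w, w ≠ v → z' w = z w) : ¬ IsIso z' := by
  classical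
  intro h'
  have e1 := even_of_isIso h
  have e2 := even_of_isIso h'
  rw [← add_sum_erase univ _ (mem_univ v)] at e1 e2
  have : ∑ w ∈ univ.erase v, (z' w).toNat = ∑ w ∈ univ.erase v, (z w).toNat :=
    sum_congr rfl (fun w hw => by rw [h2 w (ne_of_mem_erase hw)])
  rw [this, h1] at e2
  cases hz : z v
  · rw [hz] at e1 e2
    simp only [Bool.not_false, Bool.toNat_true, Bool.toNat_false] at e1 e2
    rw [Nat.even_iff] at e1 e2
    omega
  · rw [hz] at e1 e2
    simp only [Bool.not_true, Bool.toNat_true, Bool.toNat_false] at e1 e2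
    rw [Nat.even_iff] at e1 e2
    omega

theorem dnnf_bound {n q m s : ℕ} (C : Circuit (Var n) s) (hC : C.Decomposable)
    (hcomp : ∀ z, C.eval z = true ↔ IsIso z) (hn : 1000 ≤ n)
    (hq1 : n.factorial < 2 ^ q) (hq2 : 100000 * q ≤ n ^ 2)
    (hm : 20 * m ≤ n) (hmq : m.factorial ≤ 2 ^ q) : m.factorial ≤ 2 * s := by
  classical
  set N := Fintype.card (Pr n) with hN
  have hN2 : 2 * N = n * (n - 1) := card_Pr n
  have hNpos : 1 ≤ N := by
    by_contra h
    have : N = 0 := by omega
    rw [this] at hN2
    have h1 : 1 ≤ n - 1 := by omega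
    nlinarith
  -- every isomorphic pair lies in the rectangle of a balanced gate
  let R : Fin s → (Var n → Bool) → Prop := fun j z =>
    Formula.Ctx z (C.unfold C.out) (C.unfold j) ∧ Formula.Full z (C.unfold j)
  let J : Finset (Fin s) := univ.filter (fun j =>
    2 * N ≤ 3 * (C.unfold j).vars.card ∧ 3 * (C.unfold j).vars.card ≤ 4 * N)
  have hcover : ∀ (π : Equiv.Perm (Fin n)) (x : Pr n → Bool), ∃ j ∈ J, x ∈ slice (R j) π := by
    intro π x
    have hz : (C.unfold C.out).eval (inp π x) = true := (hcomp _).2 (isIso_inp π x)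
    obtain ⟨S, hS1, hS2, hS3⟩ := Formula.exists_cert (C.unfold C.out) (C.dec_unfold hC _) hz
    have hSuniv : S = univ := by
      by_contra hne
      obtain ⟨v, hv⟩ : ∃ v, v ∉ S := by
        by_contra h
        push Not at h
        exact hne (eq_univ_of_forall h)
      have h1 := hS2 (Function.update (inp π x) v (!(inp π x v))) (by
        intro w hw
        rw [Function.update_of_ne]
        rintro rfl
        exact hv hw)
      refine not_isIso_flip (isIso_inp π x) v (Function.update_self ..) ?_ ((hcomp _).1 h1)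
      intro w hw
      exact Function.update_of_ne hw _ _
    have hvars : (C.unfold C.out).vars = univ := by
      apply eq_univ_of_forall
      intro v
      exact hS1 (by rw [hSuniv]; exact mem_univ v)
    have hfull := hS3 (by rw [hSuniv, hvars])
    obtain ⟨h, c, h2, h3, h4⟩ := Formula.exists_balanced (2 * N) (by omega) _
      (C.dec_unfold hC _) hfull (by
        rw [hvars, card_univ, card_Var]
        omega)
    obtain ⟨j, rfl⟩ := Circuit.ctx_unfold c C.out rfl
    refine ⟨j, ?_, ?_⟩
    · simp only [J, mem_filter, mem_univ, true_and]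
      omega
    · simp only [slice, mem_filter, mem_univ, true_and]
      exact ⟨c, h2⟩
  have hbound : ∀ j ∈ J, m.factorial * ∑ π, (slice (R j) π).card ≤
      2 * (2 ^ N * n.factorial) := by
    intro j hj
    simp only [J, mem_filter, mem_univ, true_and] at hj
    apply rect_bound (C.unfold j).vars (R j) _ hn hj.1 hj.2 hq1 hq2 hm hmq
    intro z z' hz hz'
    exact (hcomp _).1 (Formula.Ctx.eval_mix hz'.1 (C.dec_unfold hC _) hz.2)
  have htotal : 2 ^ N * n.factorial ≤ ∑ j ∈ J, ∑ π, (slice (R j) π).card := by
    rw [sum_comm]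
    calc 2 ^ N * n.factorial = ∑ π : Equiv.Perm (Fin n), 2 ^ N := by
          rw [sum_const, card_univ, Fintype.card_perm, Fintype.card_fin, smul_eq_mul, mul_comm]
      _ ≤ ∑ π : Equiv.Perm (Fin n), ∑ j ∈ J, (slice (R j) π).card := by
          apply sum_le_sum
          intro π _
          have h1 : (univ : Finset (Pr n → Bool)) ⊆ J.biUnion (fun j => slice (R j) π) := by
            intro x _
            obtain ⟨j, hj, hx⟩ := hcover π x
            exact mem_biUnion.2 ⟨j, hj, hx⟩
          have h2 := (card_le_card h1).trans card_biUnion_le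
          rwa [card_univ, Fintype.card_fun, Fintype.card_bool] at h2
  have hfinal : m.factorial * (2 ^ N * n.factorial) ≤ (2 * s) * (2 ^ N * n.factorial) := by
    calc m.factorial * (2 ^ N * n.factorial)
        ≤ m.factorial * ∑ j ∈ J, ∑ π, (slice (R j) π).card := Nat.mul_le_mul_left _ htotal
      _ = ∑ j ∈ J, m.factorial * ∑ π, (slice (R j) π).card := by rw [mul_sum]
      _ ≤ ∑ j ∈ J, 2 * (2 ^ N * n.factorial) := sum_le_sum hbound
      _ = J.card * (2 * (2 ^ N * n.factorial)) := by rw [sum_const, smul_eq_mul]
      _ ≤ s * (2 * (2 ^ N * n.factorial)) := by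
          apply Nat.mul_le_mul_right
          simpa using card_le_univ J
      _ = _ := by ring
  exact Nat.le_of_mul_le_mul_right hfinal (by positivity)

end Pool.Agent.H526R2.GI
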