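import Mathlib
import Pool.Agent.H526R2.GI.DnnfRect

/-! Sets of isomorphic pairs that are closed under a nontrivial Boolean operation are small. -/

namespace Pool.Agent.H526R2.GI

open Finset

/-- Majority of three bits. -/
def maj (a b c : Bool) : Bool := (a && b) || (b && c) || (a && c)

/-- The set is closed under coordinatewise majority (solution sets of 2-CNF formulas). -/
def MajClosed {V : Type} (S : Set (V → Bool)) : Prop :=
  ∀ x ∈ S, ∀ y ∈ S, ∀ z ∈ S, (fun v => maj (x v) (y v) (z v)) ∈ S

/-- The set is closed under coordinatewise `x + y + z` (solution sets of systems of linear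
equations modulo 2). -/
def XorClosed {V : Type} (S : Set (V → Bool)) : Prop :=
  ∀ x ∈ S, ∀ y ∈ S, ∀ z ∈ S, (fun v => xor (xor (x v) (y v)) (z v)) ∈ S

/-- The set is closed under coordinatewise AND (solution sets of Horn formulas). -/
def AndClosed {V : Type} (S : Set (V → Bool)) : Prop :=
  ∀ x ∈ S, ∀ y ∈ S, (fun v => x v && y v) ∈ S

/-- The set is closed under coordinatewise OR (solution sets of dual Horn formulas). -/
def OrClosed {V : Type} (S : Set (V → Bool)) : Prop :=
  ∀ x ∈ S, ∀ y ∈ S, (fun v => x v || y v) ∈ S

/-- number of edges of the first graph -/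
def el {n : ℕ} (z : Var n → Bool) : ℕ := ∑ e : Pr n, (z (Sum.inl e)).toNat

/-- number of edges of the second graph -/
def er {n : ℕ} (z : Var n → Bool) : ℕ := ∑ e : Pr n, (z (Sum.inr e)).toNat

theorem el_eq_er {n : ℕ} {z : Var n → Bool} (h : IsIso z) : el z = er z := by
  obtain ⟨π, hπ⟩ := (isIso_iff z).1 h
  unfold el er
  rw [← Equiv.sum_comp (act π) (fun e => (z (Sum.inr e)).toNat)]
  exact sum_congr rfl (fun e _ => by rw [hπ e])

/-- Horn case. -/
theorem card_le_of_and {n : ℕ} (S : Finset (Var n → Bool)) (hS : ∀ z ∈ S, el z = er z)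
    (hc : ∀ x ∈ S, ∀ y ∈ S, (fun v => x v && y v) ∈ S) : S.card ≤ 2 ^ Fintype.card (Pr n) := by
  classical
  have : S.card ≤ (univ : Finset (Pr n → Bool)).card := by
    refine card_le_card_of_injOn (fun z e => z (Sum.inl e)) (fun _ _ => mem_univ _) ?_
    intro z hz z' hz' h
    have hl : ∀ e, z (Sum.inl e) = z' (Sum.inl e) := fun e => congrFun h e
    have h1 := hS z hz
    have h2 := hS z' hz'
    have h3 := hS _ (hc z hz z' hz')
    have h4 : el (fun v => z v && z' v) = el z := by
      unfold el
      exact sum_congr rfl (fun e _ => by simp [← hl e])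
    have h5 : el z = el z' := by
      unfold el
      exact sum_congr rfl (fun e _ => by rw [hl e])
    have h6 : ∀ e ∈ (univ : Finset (Pr n)), (z (Sum.inr e) && z' (Sum.inr e)).toNat =
        (z (Sum.inr e)).toNat := by
      rw [← sum_eq_sum_iff_of_le]
      · show er (fun v => z v && z' v) = er z
        rw [← h3, h4, h1]
      · intro e _
        cases z (Sum.inr e) <;> cases z' (Sum.inr e) <;> simp
    have h7 : ∀ e ∈ (univ : Finset (Pr n)), (z (Sum.inr e) && z' (Sum.inr e)).toNat =
        (z' (Sum.inr e)).toNat := by
      rw [← sum_eq_sum_iff_of_le]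
      · show er (fun v => z v && z' v) = er z'
        rw [← h3, h4, h5, h2]
      · intro e _
        cases z (Sum.inr e) <;> cases z' (Sum.inr e) <;> simp
    funext v
    rcases v with e | e
    · exact hl e
    · have a := h6 e (mem_univ _)
      have b := h7 e (mem_univ _)
      rw [a] at b
      cases hz1 : z (Sum.inr e) <;> cases hz2 : z' (Sum.inr e) <;> simp_all
  rwa [card_univ, Fintype.card_fun, Fintype.card_bool] at this

/-- dual Horn case. -/
theorem card_le_of_or {n : ℕ} (S : Finset (Var n → Bool)) (hS : ∀ z ∈ S, el z = er z)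
    (hc : ∀ x ∈ S, ∀ y ∈ S, (fun v => x v || y v) ∈ S) : S.card ≤ 2 ^ Fintype.card (Pr n) := by
  classical
  have : S.card ≤ (univ : Finset (Pr n → Bool)).card := by
    refine card_le_card_of_injOn (fun z e => z (Sum.inl e)) (fun _ _ => mem_univ _) ?_
    intro z hz z' hz' h
    have hl : ∀ e, z (Sum.inl e) = z' (Sum.inl e) := fun e => congrFun h e
    have h1 := hS z hz
    have h2 := hS z' hz'
    have h3 := hS _ (hc z hz z' hz')
    have h4 : el (fun v => z v || z' v) = el z := by
      unfold el
      exact sum_congr rfl (fun e _ => by simp [← hl e])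
    have h5 : el z = el z' := by
      unfold el
      exact sum_congr rfl (fun e _ => by rw [hl e])
    have h6 : ∀ e ∈ (univ : Finset (Pr n)), (z (Sum.inr e)).toNat =
        (z (Sum.inr e) || z' (Sum.inr e)).toNat := by
      rw [← sum_eq_sum_iff_of_le]
      · show er z = er (fun v => z v || z' v)
        rw [← h3, h4, h1]
      · intro e _
        cases z (Sum.inr e) <;> cases z' (Sum.inr e) <;> simp
    have h7 : ∀ e ∈ (univ : Finset (Pr n)), (z' (Sum.inr e)).toNat =
        (z (Sum.inr e) || z' (Sum.inr e)).toNat := by
      rw [← sum_eq_sum_iff_of_le]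
      · show er z' = er (fun v => z v || z' v)
        rw [← h3, h4, h5, h2]
      · intro e _
        cases z (Sum.inr e) <;> cases z' (Sum.inr e) <;> simp
    funext v
    rcases v with e | e
    · exact hl e
    · have a := h6 e (mem_univ _)
      have b := h7 e (mem_univ _)
      rw [← a] at b
      cases hz1 : z (Sum.inr e) <;> cases hz2 : z' (Sum.inr e) <;> simp_all
  rwa [card_univ, Fintype.card_fun, Fintype.card_bool] at this

/-- affine case. -/
theorem card_le_of_xor {n : ℕ} (S : Finset (Var n → Bool)) (hS : ∀ z ∈ S, el z = er z)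
    (hc : ∀ x ∈ S, ∀ y ∈ S, ∀ z ∈ S, (fun v => xor (xor (x v) (y v)) (z v)) ∈ S) :
    S.card ≤ 2 ^ Fintype.card (Pr n) := by
  classical
  rcases S.eq_empty_or_nonempty with rfl | ⟨z0, hz0⟩
  · simp
  -- shattered sets
  let Sh : Finset (Finset (Var n)) := univ.filter (fun I => ∀ p : Var n → Bool, ∃ z ∈ S, ∀ i ∈ I, z i = p i)
  have hne : Sh.Nonempty := ⟨∅, by simp [Sh]; exact ⟨z0, hz0⟩⟩
  obtain ⟨I, hI, hmax⟩ := exists_max_image Sh card hne
  simp only [Sh, mem_filter, mem_univ, true_and] at hI hmax
  have hinj : ∀ v ∈ S, ∀ v' ∈ S, (∀ i ∈ I, v i = v' i) → v = v' := by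
    intro v hv v' hv' h
    by_contra hne
    obtain ⟨i, hi⟩ : ∃ i, v i ≠ v' i := by
      by_contra h'
      push Not at h'
      exact hne (funext h')
    have hiI : i ∉ I := fun h' => hi (h i h')
    have := hmax (insert i I) (by
      intro p
      obtain ⟨u, hu, hup⟩ := hI p
      by_cases hui : u i = p i
      · refine ⟨u, hu, ?_⟩
        intro j hj
        rcases mem_insert.1 hj with rfl | hj
        · exact hui
        · exact hup j hj
      · refine ⟨_, hc u hu v hv v' hv', ?_⟩
        intro j hj
        rcases mem_insert.1 hj with rfl | hj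
        · show xor (xor (u j) (v j)) (v' j) = p j
          revert hi hui
          cases u j <;> cases v j <;> cases v' j <;> cases p j <;> simp
        · show xor (xor (u j) (v j)) (v' j) = p j
          rw [h j hj, ← hup j hj]
          cases u j <;> cases v' j <;> rfl)
    rw [card_insert_of_notMem hiI] at this
    omega
  have hcard : S.card ≤ 2 ^ I.card := by
    have : S.card ≤ (univ : Finset ({i // i ∈ I} → Bool)).card := by
      refine card_le_card_of_injOn (fun z i => z i.1) (fun _ _ => mem_univ _) ?_
      intro z hz z' hz' h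
      exact hinj z hz z' hz' (fun i hi => congrFun h ⟨i, hi⟩)
    rwa [card_univ, Fintype.card_fun, Fintype.card_bool, Fintype.card_coe] at this
  refine hcard.trans (Nat.pow_le_pow_right (by norm_num) ?_)
  -- the bound on I
  obtain ⟨u, hu, hup⟩ := hI (Sum.elim (fun _ => true) (fun _ => false))
  have h1 := hS u hu
  have h2 : (left I).card ≤ el u := by
    unfold el
    rw [card_eq_sum_ones]
    calc ∑ e ∈ left I, 1 = ∑ e ∈ left I, (u (Sum.inl e)).toNat := by
          apply sum_congr rfl
          intro e he
          simp only [left, mem_filter, mem_univ, true_and] at he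
          rw [hup _ he]
          rfl
      _ ≤ _ := sum_le_sum_of_subset (subset_univ _)
  have h3 : er u + (right I).card ≤ Fintype.card (Pr n) := by
    unfold er
    have : ∑ e : Pr n, (u (Sum.inr e)).toNat ≤ ∑ e ∈ (right I)ᶜ, 1 := by
      rw [← sum_add_sum_compl (right I)]
      have a : ∑ e ∈ right I, (u (Sum.inr e)).toNat = 0 := by
        apply sum_eq_zero
        intro e he
        simp only [right, mem_filter, mem_univ, true_and] at he
        rw [hup _ he]
        rfl
      rw [a, zero_add]
      apply sum_le_sum
      intro e _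
      cases u (Sum.inr e) <;> simp
    rw [sum_const, smul_eq_mul, mul_one] at this
    have h4 := card_add_card_compl (right I)
    omega
  have h4 := card_left_add_card_right I
  omega

/-- A Kraft type inequality. -/
theorem kraft {V : Type} [Fintype V] [DecidableEq V] (S : Finset (V → Bool)) (ord : V → ℕ)
    (hord : Function.Injective ord) (D : (V → Bool) → Finset V)
    (hD : ∀ z ∈ S, ∀ i ∈ D z, ∀ z' ∈ S, (∀ j, ord j < ord i → z' j = z j) → z' i = z i) :
    ∑ z ∈ S, 2 ^ (D z).card ≤ 2 ^ Fintype.card V := by
  classical
  let C : (V → Bool) → Finset (V → Bool) := fun z => univ.filter (fun w => ∀ i, i ∉ D z → w i = z i)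
  have hC : ∀ z, (C z).card = 2 ^ (D z).card := by
    intro z
    have : (C z).card = Fintype.card ({i // i ∈ D z} → Bool) := by
      rw [← card_univ]
      refine card_nbij' (fun w i => w i.1) (fun a i => if h : i ∈ D z then a ⟨i, h⟩ else z i)
        (fun _ _ => mem_univ _) ?_ ?_ ?_
      · intro a _
        simp only [C, coe_filter, mem_univ, true_and, Set.mem_ofPred_eq]
        intro i hi
        rw [dif_neg hi]
      · intro w hw
        simp only [C, coe_filter, mem_univ, true_and, Set.mem_ofPred_eq] at hw
        funext i
        by_cases hi : i ∈ D z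
        · simp [hi]
        · simp [hi, hw i hi]
      · intro a _
        funext i
        simp
    rw [this, Fintype.card_fun, Fintype.card_bool, Fintype.card_coe]
  have hdisj : (S : Set (V → Bool)).PairwiseDisjoint C := by
    intro z hz z' hz' hne
    rw [Function.onFun, disjoint_left]
    intro w hw hw'
    simp only [C, mem_filter, mem_univ, true_and] at hw hw'
    -- first difference
    have hex : (univ.filter (fun i => z i ≠ z' i)).Nonempty := by
      by_contra h
      rw [not_nonempty_iff_eq_empty, filter_eq_empty_iff] at h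
      apply hne
      funext i
      have := h (mem_univ i)
      simpa using this
    obtain ⟨i, hi, hmin⟩ := exists_min_image _ ord hex
    simp only [mem_filter, mem_univ, true_and] at hi hmin
    have hbefore : ∀ j, ord j < ord i → z j = z' j := by
      intro j hj
      by_contra h
      have := hmin j h
      omega
    have h1 : i ∉ D z := by
      intro h
      exact hi (hD z hz i h z' hz' (fun j hj => (hbefore j hj).symm)).symm
    have h2 : i ∉ D z' := by
      intro h
      exact hi (hD z' hz' i h z hz (fun j hj => hbefore j hj))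
    exact hi ((hw i h1).symm.trans (hw' i h2))
  calc ∑ z ∈ S, 2 ^ (D z).card = ∑ z ∈ S, (C z).card := sum_congr rfl (fun z _ => (hC z).symm)
    _ = (S.biUnion C).card := (card_biUnion hdisj).symm
    _ ≤ (univ : Finset (V → Bool)).card := card_le_univ _
    _ = 2 ^ Fintype.card V := by rw [card_univ, Fintype.card_fun, Fintype.card_bool]

/-- majority case: if no two members are at distance one then the set is small. -/
theorem card_le_of_maj {V : Type} [Fintype V] [DecidableEq V] (S : Finset (V → Bool)) (N : ℕ)
    (hN : Fintype.card V = 2 * N)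
    (hS : ∀ z ∈ S, ∀ i, (fun j => if j = i then !(z j) else z j) ∉ S)
    (hc : ∀ x ∈ S, ∀ y ∈ S, ∀ z ∈ S, (fun v => maj (x v) (y v) (z v)) ∈ S) :
    S.card ≤ 2 ^ N := by
  classical
  -- each coordinate is determined by a single other one
  have key : ∀ z ∈ S, ∀ i, (∀ z' ∈ S, z' i = z i) ∨ ∃ j, j ≠ i ∧ ∀ z' ∈ S, z' j = z j → z' i = z i := by
    intro z hz i
    by_contra hcon
    push Not at hcon
    obtain ⟨⟨w0, hw0, hw0i⟩, h2⟩ := hcon
    have build : ∀ J : Finset V, i ∉ J → ∃ w ∈ S, w i ≠ z i ∧ ∀ j ∈ J, w j = z j := by
      intro J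
      induction J using Finset.induction_on with
      | empty => exact fun _ => ⟨w0, hw0, hw0i, by simp⟩
      | insert a J ha ih =>
        intro hi
        rw [mem_insert, not_or] at hi
        obtain ⟨w, hw, hwi, hwJ⟩ := ih hi.2
        obtain ⟨u, hu, hua, hui⟩ := h2 a (Ne.symm hi.1)
        refine ⟨_, hc w hw u hu z hz, ?_, ?_⟩
        · show maj (w i) (u i) (z i) ≠ z i
          revert hwi hui
          cases w i <;> cases u i <;> cases z i <;> simp [maj]
        · intro j hj
          show maj (w j) (u j) (z j) = z j
          rcases mem_insert.1 hj with rfl | hj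
          · rw [hua]
            cases w j <;> cases z j <;> rfl
          · rw [hwJ j hj]
            cases u j <;> cases z j <;> rfl
    obtain ⟨w, hw, hwi, hwJ⟩ := build (univ.erase i) (by simp)
    apply hS z hz i
    have : (fun j => if j = i then !(z j) else z j) = w := by
      funext j
      by_cases hj : j = i
      · subst hj
        simp only [if_true]
        revert hwi
        cases w j <;> cases z j <;> simp
      · rw [if_neg hj]
        exact (hwJ j (by simp [hj])).symm
    rw [this]
    exact hw
  let o : V → ℕ := fun v => (Fintype.equivFin V v).1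
  have ho : Function.Injective o := fun a b h => (Fintype.equivFin V).injective (Fin.ext h)
  have hoN : ∀ v, o v ≤ 2 * N := by
    intro v
    have := (Fintype.equivFin V v).2
    simp only [o]
    omega
  let o' : V → ℕ := fun v => 2 * N - o v
  have ho' : Function.Injective o' := by
    intro a b h
    apply ho
    simp only [o'] at h
    have := hoN a
    have := hoN b
    omega
  let D : (V → ℕ) → (V → Bool) → Finset V := fun ord z =>
    univ.filter (fun i => ∀ z' ∈ S, (∀ j, ord j < ord i → z' j = z j) → z' i = z i)
  have hk1 := kraft S o ho (D o) (by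
    intro z _ i hi
    simp only [D, mem_filter, mem_univ, true_and] at hi
    exact hi)
  have hk2 := kraft S o' ho' (D o') (by
    intro z _ i hi
    simp only [D, mem_filter, mem_univ, true_and] at hi
    exact hi)
  have hcov : ∀ z ∈ S, 2 * N ≤ (D o z).card + (D o' z).card := by
    intro z hz
    rw [← hN, ← card_univ]
    refine le_trans (card_le_card ?_) (card_union_le _ _)
    intro i _
    simp only [D, mem_union, mem_filter, mem_univ, true_and]
    rcases key z hz i with h | ⟨j, hji, h⟩
    · left
      intro z' hz' _
      exact h z' hz'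
    · rcases Nat.lt_or_ge (o j) (o i) with h1 | h1
      · left
        intro z' hz' h2
        exact h z' hz' (h2 j h1)
      · right
        intro z' hz' h2
        apply h z' hz' (h2 j _)
        have h3 : o j ≠ o i := fun h4 => hji (ho h4)
        have := hoN j
        simp only [o']
        omega
  have hmain : ∑ z ∈ S, 2 ^ (N + 1) ≤ ∑ z ∈ S, (2 ^ (D o z).card + 2 ^ (D o' z).card) := by
    apply sum_le_sum
    intro z hz
    have h1 := hcov z hz
    rcases Nat.lt_or_ge N (D o z).card with h2 | h2
    · exact (Nat.pow_le_pow_right (by norm_num) h2).trans (Nat.le_add_right _ _)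
    · rcases Nat.lt_or_ge N (D o' z).card with h3 | h3
      · exact (Nat.pow_le_pow_right (by norm_num) h3).trans (Nat.le_add_left _ _)
      · have e1 : (D o z).card = N := by omega
        have e2 : (D o' z).card = N := by omega
        rw [e1, e2, pow_succ]
        omega
  rw [sum_const, smul_eq_mul, sum_add_distrib] at hmain
  rw [hN] at hk1 hk2
  have hfin : S.card * 2 ^ (N + 1) ≤ 2 ^ N * 2 ^ (N + 1) := by
    have : 2 ^ N * 2 ^ (N + 1) = 2 ^ (2 * N) + 2 ^ (2 * N) := by
      rw [← pow_add, ← mul_two, ← pow_succ]
      congr 1
      ring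
    omega
  exact Nat.le_of_mul_le_mul_right hfin (by positivity)

/-- A set of isomorphic pairs closed under one of the four operations has at most `2 ^ N`
members. -/
theorem card_le_of_closed {n : ℕ} (S : Set (Var n → Bool)) (hS : ∀ z ∈ S, IsIso z)
    (hc : MajClosed S ∨ XorClosed S ∨ AndClosed S ∨ OrClosed S) :
    S.ncard ≤ 2 ^ Fintype.card (Pr n) := by
  classical
  rw [Set.ncard_eq_toFinset_card']
  have hS' : ∀ z ∈ S.toFinset, el z = er z := by
    intro z hz
    exact el_eq_er (hS z (by simpa using hz))
  rcases hc with hc | hc | hc | hc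
  · apply card_le_of_maj S.toFinset _ (card_Var n)
    · intro z hz i hi
      rw [Set.mem_toFinset] at hz hi
      refine not_isIso_flip (hS z hz) i ?_ ?_ (hS _ hi)
      · simp
      · intro w hw
        simp [hw]
    · intro x hx y hy z hz
      rw [Set.mem_toFinset] at *
      exact hc x hx y hy z hz
  · apply card_le_of_xor _ hS'
    intro x hx y hy z hz
    rw [Set.mem_toFinset] at *
    exact hc x hx y hy z hz
  · apply card_le_of_and _ hS'
    intro x hx y hy
    rw [Set.mem_toFinset] at *
    exact hc x hx y hy
  · apply card_le_of_or _ hS'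
    intro x hx y hy
    rw [Set.mem_toFinset] at *
    exact hc x hx y hy

end Pool.Agent.H526R2.GI
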