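import Mathlib
import Pool.Agent.H526R2.GI.DnnfRect

/-! The brute force DNNF circuit for graph isomorphism. -/

namespace Pool.Agent.H526R2.GI

open Finset

/-- Number of nodes of a formula. -/
def Formula.size {V : Type} : Formula V → ℕ
  | .lit _ _ => 1
  | .const _ => 1
  | .and f g => f.size + g.size + 1
  | .or f g => f.size + g.size + 1

/-- Renaming of gates. -/
def Gate.map {V : Type} {s t : ℕ} (φ : Fin s → Fin t) : Gate V s → Gate V t
  | .lit v b => .lit v b
  | .const b => .const b
  | .and i j => .and (φ i) (φ j)
  | .or i j => .or (φ i) (φ j)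

namespace Circuit

variable {V : Type}

/-- An order preserving embedding of gates that respects the gate types preserves the
unfolded formulas. -/
theorem unfold_map {s t : ℕ} (C : Circuit V s) (D : Circuit V t) (φ : Fin s → Fin t)
    (h : ∀ i, D.gate (φ i) = (C.gate i).map φ) (i : Fin s) : D.unfold (φ i) = C.unfold i := by
  induction i using WellFoundedLT.induction with
  | _ i ih =>
    have hi := h i
    rw [unfold, unfold]
    split
    · rename_i v b hv
      rw [hv] at hi
      split
      · rename_i v' b' hv'
        rw [hv'] at hi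
        simp only [Gate.map] at hi
        cases hi
        rfl
      · rename_i b' hv'
        rw [hv'] at hi
        simp only [Gate.map] at hi
        cases hi
      · rename_i b' hv'
        rw [hv'] at hi
        simp only [Gate.map] at hi
        cases hi
      · rename_i b' hv'
        rw [hv'] at hi
        simp only [Gate.map] at hi
        cases hi
    · rename_i b hv
      rw [hv] at hi
      split
      · rename_i v' b' hv'
        rw [hv'] at hi
        simp only [Gate.map] at hi
        cases hi
      · rename_i b' hv'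
        rw [hv'] at hi
        simp only [Gate.map] at hi
        cases hi
        rfl
      · rename_i b' hv'
        rw [hv'] at hi
        simp only [Gate.map] at hi
        cases hi
      · rename_i b' hv'
        rw [hv'] at hi
        simp only [Gate.map] at hi
        cases hi
    · rename_i j k hv
      rw [hv] at hi
      split
      · rename_i v' b' hv'
        rw [hv'] at hi
        simp only [Gate.map] at hi
        cases hi
      · rename_i b' hv'
        rw [hv'] at hi
        simp only [Gate.map] at hi
        cases hi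
      · rename_i j' k' hv'
        rw [hv'] at hi
        simp only [Gate.map] at hi
        injection hi with h1 h2
        subst h1 h2
        show Formula.and (D.unfold (φ j')) (D.unfold (φ k')) = Formula.and (C.unfold j') (C.unfold k')
        rw [ih j' (C.and_lt i j' k' hv').1, ih k' (C.and_lt i j' k' hv').2]
      · rename_i b' hv'
        rw [hv'] at hi
        simp only [Gate.map] at hi
        cases hi
    · rename_i j k hv
      rw [hv] at hi
      split
      · rename_i v' b' hv'
        rw [hv'] at hi
        simp only [Gate.map] at hi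
        cases hi
      · rename_i b' hv'
        rw [hv'] at hi
        simp only [Gate.map] at hi
        cases hi
      · rename_i b' hv'
        rw [hv'] at hi
        simp only [Gate.map] at hi
        cases hi
      · rename_i j' k' hv'
        rw [hv'] at hi
        simp only [Gate.map] at hi
        injection hi with h1 h2
        subst h1 h2
        show Formula.or (D.unfold (φ j')) (D.unfold (φ k')) = Formula.or (C.unfold j') (C.unfold k')
        rw [ih j' (C.or_lt i j' k' hv').1, ih k' (C.or_lt i j' k' hv').2]

end Circuit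

theorem Gate.map_eq_and {V : Type} {s t : ℕ} {φ : Fin s → Fin t} {g : Gate V s} {j k : Fin t}
    (h : g.map φ = .and j k) : ∃ j' k', g = .and j' k' ∧ φ j' = j ∧ φ k' = k := by
  cases g with
  | lit v b => simp [Gate.map] at h
  | const b => simp [Gate.map] at h
  | and i' j' =>
    simp only [Gate.map] at h
    injection h with h1 h2
    exact ⟨i', j', rfl, h1, h2⟩
  | or i' j' => simp [Gate.map] at h

theorem Gate.map_eq_or {V : Type} {s t : ℕ} {φ : Fin s → Fin t} {g : Gate V s} {j k : Fin t}
    (h : g.map φ = .or j k) : ∃ j' k', g = .or j' k' ∧ φ j' = j ∧ φ k' = k := by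
  cases g with
  | lit v b => simp [Gate.map] at h
  | const b => simp [Gate.map] at h
  | and i' j' => simp [Gate.map] at h
  | or i' j' =>
    simp only [Gate.map] at h
    injection h with h1 h2
    exact ⟨i', j', rfl, h1, h2⟩

/-- Joining two circuits by a new output gate. -/
theorem exists_join {V : Type} [DecidableEq V] {s t : ℕ} (C : Circuit V s) (D : Circuit V t)
    (hC : C.Decomposable) (hD : D.Decomposable) (isAnd : Bool)
    (hdis : isAnd = true → Disjoint (C.unfold C.out).vars (D.unfold D.out).vars) :
    ∃ E : Circuit V (s + t + 1), E.Decomposable ∧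
      E.unfold E.out = if isAnd then .and (C.unfold C.out) (D.unfold D.out)
        else .or (C.unfold C.out) (D.unfold D.out) := by
  classical
  let φ : Fin s → Fin (s + t + 1) := fun i => ⟨i.1, by omega⟩
  let ψ : Fin t → Fin (s + t + 1) := fun i => ⟨s + i.1, by omega⟩
  let gt : Fin (s + t + 1) → Gate V (s + t + 1) := fun i =>
    if h : i.1 < s then (C.gate ⟨i.1, h⟩).map φ
    else if h' : i.1 < s + t then (D.gate ⟨i.1 - s, by omega⟩).map ψ
    else if isAnd then .and (φ C.out) (ψ D.out) else .or (φ C.out) (ψ D.out)
  have hgφ : ∀ i, gt (φ i) = (C.gate i).map φ := by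
    intro i
    simp only [gt, φ]
    rw [dif_pos i.2]
  have hgψ : ∀ i, gt (ψ i) = (D.gate i).map ψ := by
    intro i
    simp only [gt, ψ]
    rw [dif_neg (by omega), dif_pos (by omega)]
    congr 2
    apply Fin.ext
    simp
  have hcases : ∀ i : Fin (s + t + 1), (∃ j, i = φ j) ∨ (∃ j, i = ψ j) ∨ i = Fin.last (s + t) := by
    intro i
    by_cases h : i.1 < s
    · left; exact ⟨⟨i.1, h⟩, rfl⟩
    by_cases h' : i.1 < s + t
    · right; left
      exact ⟨⟨i.1 - s, by omega⟩, Fin.ext (by simp [ψ]; omega)⟩
    · right; right
      apply Fin.ext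
      simp
      omega
  have hlast : gt (Fin.last (s + t)) =
      if isAnd then .and (φ C.out) (ψ D.out) else .or (φ C.out) (ψ D.out) := by
    simp only [gt, Fin.val_last]
    rw [dif_neg (by omega), dif_neg (by omega)]
  have hφlt : ∀ i j : Fin s, i < j → φ i < φ j := fun i j h => h
  have hψlt : ∀ i j : Fin t, i < j → ψ i < ψ j := by
    intro i j h
    simp only [ψ, Fin.mk_lt_mk]
    have : i.1 < j.1 := h
    omega
  have hφl : ∀ i, φ i < Fin.last (s + t) := by
    intro i
    simp only [φ, Fin.lt_def, Fin.val_last]
    omega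
  have hψl : ∀ i, ψ i < Fin.last (s + t) := by
    intro i
    simp only [ψ, Fin.lt_def, Fin.val_last]
    omega
  have hand : ∀ i j k, gt i = Gate.and j k → j < i ∧ k < i := by
    intro i j k h
    rcases hcases i with ⟨i', rfl⟩ | ⟨i', rfl⟩ | rfl
    · rw [hgφ] at h
      obtain ⟨j', k', h1, rfl, rfl⟩ := Gate.map_eq_and h
      exact ⟨hφlt _ _ (C.and_lt _ _ _ h1).1, hφlt _ _ (C.and_lt _ _ _ h1).2⟩
    · rw [hgψ] at h
      obtain ⟨j', k', h1, rfl, rfl⟩ := Gate.map_eq_and h
      exact ⟨hψlt _ _ (D.and_lt _ _ _ h1).1, hψlt _ _ (D.and_lt _ _ _ h1).2⟩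
    · rw [hlast] at h
      cases isAnd
      · simp at h
      · simp only [if_true] at h
        injection h with h1 h2
        rw [← h1, ← h2]
        exact ⟨hφl _, hψl _⟩
  have hor : ∀ i j k, gt i = Gate.or j k → j < i ∧ k < i := by
    intro i j k h
    rcases hcases i with ⟨i', rfl⟩ | ⟨i', rfl⟩ | rfl
    · rw [hgφ] at h
      obtain ⟨j', k', h1, rfl, rfl⟩ := Gate.map_eq_or h
      exact ⟨hφlt _ _ (C.or_lt _ _ _ h1).1, hφlt _ _ (C.or_lt _ _ _ h1).2⟩
    · rw [hgψ] at h
      obtain ⟨j', k', h1, rfl, rfl⟩ := Gate.map_eq_or h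
      exact ⟨hψlt _ _ (D.or_lt _ _ _ h1).1, hψlt _ _ (D.or_lt _ _ _ h1).2⟩
    · rw [hlast] at h
      cases isAnd
      · simp only [Bool.false_eq_true, if_false] at h
        injection h with h1 h2
        rw [← h1, ← h2]
        exact ⟨hφl _, hψl _⟩
      · simp at h
  let E : Circuit V (s + t + 1) := ⟨gt, hand, hor, Fin.last (s + t)⟩
  have hEφ : ∀ i, E.unfold (φ i) = C.unfold i := Circuit.unfold_map C E φ hgφ
  have hEψ : ∀ i, E.unfold (ψ i) = D.unfold i := Circuit.unfold_map D E ψ hgψ
  refine ⟨E, ?_, ?_⟩
  · intro i j k h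
    have h' : gt i = Gate.and j k := h
    rcases hcases i with ⟨i', rfl⟩ | ⟨i', rfl⟩ | rfl
    · rw [hgφ] at h'
      obtain ⟨j', k', h1, rfl, rfl⟩ := Gate.map_eq_and h'
      rw [hEφ, hEφ]
      exact hC _ _ _ h1
    · rw [hgψ] at h'
      obtain ⟨j', k', h1, rfl, rfl⟩ := Gate.map_eq_and h'
      rw [hEψ, hEψ]
      exact hD _ _ _ h1
    · rw [hlast] at h'
      cases isAnd
      · simp at h'
      · simp only [if_true] at h'
        injection h' with h1 h2
        rw [← h1, ← h2, hEφ, hEψ]
        exact hdis rfl
  · have hout : E.out = Fin.last (s + t) := rfl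
    have hg : E.gate (Fin.last (s + t)) =
      if isAnd then .and (φ C.out) (ψ D.out) else .or (φ C.out) (ψ D.out) := hlast
    rw [hout, Circuit.unfold]
    cases isAnd
    · simp only [Bool.false_eq_true, if_false] at hg ⊢
      split
      · rename_i h; rw [hg] at h; cases h
      · rename_i h; rw [hg] at h; cases h
      · rename_i h; rw [hg] at h; cases h
      · rename_i j k h
        rw [hg] at h
        injection h with h1 h2
        rw [← h1, ← h2, hEφ, hEψ]
    · simp only [if_true] at hg ⊢
      split
      · rename_i h; rw [hg] at h; cases h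
      · rename_i h; rw [hg] at h; cases h
      · rename_i j k h
        rw [hg] at h
        injection h with h1 h2
        rw [← h1, ← h2, hEφ, hEψ]
      · rename_i h; rw [hg] at h; cases h

/-- Every decomposable formula is a decomposable circuit of the same size. -/
theorem exists_circuit {V : Type} [DecidableEq V] (f : Formula V) (hf : f.Dec) :
    ∃ C : Circuit V f.size, C.Decomposable ∧ C.unfold C.out = f := by
  induction f with
  | lit v b =>
    let C : Circuit V 1 := ⟨fun _ => .lit v b, (by intro _ _ _ h; cases h),
      (by intro _ _ _ h; cases h), 0⟩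
    refine ⟨C, ?_, ?_⟩
    · intro _ _ _ h
      cases h
    · rw [Circuit.unfold]
  | const b =>
    let C : Circuit V 1 := ⟨fun _ => .const b, (by intro _ _ _ h; cases h),
      (by intro _ _ _ h; cases h), 0⟩
    refine ⟨C, ?_, ?_⟩
    · intro _ _ _ h
      cases h
    · rw [Circuit.unfold]
  | and f g ihf ihg =>
    obtain ⟨C, hC, hCo⟩ := ihf hf.2.1
    obtain ⟨D, hD, hDo⟩ := ihg hf.2.2
    obtain ⟨E, hE, hEo⟩ := exists_join C D hC hD true (by
      intro _
      rw [hCo, hDo]
      exact hf.1)
    rw [hCo, hDo] at hEo
    exact ⟨E, hE, hEo⟩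
  | or f g ihf ihg =>
    obtain ⟨C, hC, hCo⟩ := ihf hf.1
    obtain ⟨D, hD, hDo⟩ := ihg hf.2
    obtain ⟨E, hE, hEo⟩ := exists_join C D hC hD false (by intro h; cases h)
    rw [hCo, hDo] at hEo
    exact ⟨E, hE, hEo⟩

/-- Conjunction of a list of formulas. -/
def bigAnd {V : Type} : List (Formula V) → Formula V
  | [] => .const true
  | f :: l => .and f (bigAnd l)

/-- Disjunction of a list of formulas. -/
def bigOr {V : Type} : List (Formula V) → Formula V
  | [] => .const false
  | f :: l => .or f (bigOr l)

theorem eval_bigAnd {V : Type} (z : V → Bool) (l : List (Formula V)) :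
    (bigAnd l).eval z = true ↔ ∀ f ∈ l, f.eval z = true := by
  induction l with
  | nil => simp [bigAnd, Formula.eval]
  | cons f l ih => simp [bigAnd, Formula.eval, ih]

theorem eval_bigOr {V : Type} (z : V → Bool) (l : List (Formula V)) :
    (bigOr l).eval z = true ↔ ∃ f ∈ l, f.eval z = true := by
  induction l with
  | nil => simp [bigOr, Formula.eval]
  | cons f l ih => simp [bigOr, Formula.eval, ih]

theorem dec_bigOr {V : Type} [DecidableEq V] (l : List (Formula V)) (h : ∀ f ∈ l, f.Dec) :
    (bigOr l).Dec := by
  induction l with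
  | nil => trivial
  | cons f l ih =>
    exact ⟨h f (by simp), ih (fun g hg => h g (by simp [hg]))⟩

theorem vars_bigAnd {V : Type} [DecidableEq V] (l : List (Formula V)) (v : V) :
    v ∈ (bigAnd l).vars ↔ ∃ f ∈ l, v ∈ f.vars := by
  induction l with
  | nil => simp [bigAnd, Formula.vars]
  | cons f l ih => simp [bigAnd, Formula.vars, ih]

theorem dec_bigAnd {V : Type} [DecidableEq V] (l : List (Formula V)) (h : ∀ f ∈ l, f.Dec)
    (hp : l.Pairwise (fun f g => Disjoint f.vars g.vars)) : (bigAnd l).Dec := by
  induction l with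
  | nil => trivial
  | cons f l ih =>
    rw [List.pairwise_cons] at hp
    refine ⟨?_, h f (by simp), ih (fun g hg => h g (by simp [hg])) hp.2⟩
    rw [disjoint_left]
    intro v hv hv'
    obtain ⟨g, hg, hvg⟩ := (vars_bigAnd l v).1 hv'
    exact disjoint_left.1 (hp.1 g hg) hv hvg

theorem size_bigAnd {V : Type} (l : List (Formula V)) (k : ℕ) (h : ∀ f ∈ l, f.size = k) :
    (bigAnd l).size = l.length * (k + 1) + 1 := by
  induction l with
  | nil => simp [bigAnd, Formula.size]
  | cons f l ih =>
    simp only [bigAnd, Formula.size, List.length_cons]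
    rw [h f (by simp), ih (fun g hg => h g (by simp [hg]))]
    ring

theorem size_bigOr {V : Type} (l : List (Formula V)) (k : ℕ) (h : ∀ f ∈ l, f.size = k) :
    (bigOr l).size = l.length * (k + 1) + 1 := by
  induction l with
  | nil => simp [bigOr, Formula.size]
  | cons f l ih =>
    simp only [bigOr, Formula.size, List.length_cons]
    rw [h f (by simp), ih (fun g hg => h g (by simp [hg]))]
    ring

/-- The bits `v` and `w` are equal. -/
def eqv {V : Type} (v w : V) : Formula V :=
  .or (.and (.lit v true) (.lit w true)) (.and (.lit v false) (.lit w false))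

/-- `π` is an isomorphism. -/
noncomputable def term {n : ℕ} (π : Equiv.Perm (Fin n)) : Formula (Var n) :=
  bigAnd ((univ : Finset (Pr n)).toList.map (fun e => eqv (Sum.inl e) (Sum.inr (act π e))))

/-- Some permutation is an isomorphism. -/
noncomputable def brute (n : ℕ) : Formula (Var n) :=
  bigOr ((univ : Finset (Equiv.Perm (Fin n))).toList.map term)

theorem eval_brute {n : ℕ} (z : Var n → Bool) : (brute n).eval z = true ↔ IsIso z := by
  rw [isIso_iff, brute, eval_bigOr]
  simp only [List.mem_map, mem_toList, mem_univ, true_and, exists_exists_eq_and]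
  apply exists_congr
  intro π
  rw [term, eval_bigAnd]
  simp only [List.mem_map, mem_toList, mem_univ, true_and, forall_exists_index,
    forall_apply_eq_imp_iff]
  apply forall_congr'
  intro e
  simp only [eqv, Formula.eval]
  cases z (Sum.inl e) <;> cases z (Sum.inr (act π e)) <;> simp

theorem dec_brute (n : ℕ) : (brute n).Dec := by
  classical
  apply dec_bigOr
  intro f hf
  simp only [List.mem_map, mem_toList, mem_univ, true_and] at hf
  obtain ⟨π, rfl⟩ := hf
  apply dec_bigAnd
  · intro f hf
    simp only [List.mem_map, mem_toList, mem_univ, true_and] at hf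
    obtain ⟨e, rfl⟩ := hf
    simp [eqv, Formula.Dec, Formula.vars]
  · rw [List.pairwise_map]
    refine (nodup_toList _).imp ?_
    intro a b hab
    rw [disjoint_left]
    intro v hv hv'
    simp only [eqv, Formula.vars, mem_union, mem_singleton] at hv hv'
    have h1 : v = Sum.inl a ∨ v = Sum.inr (act π a) := by tauto
    have h2 : v = Sum.inl b ∨ v = Sum.inr (act π b) := by tauto
    rcases h1 with h1 | h1 <;> rcases h2 with h2 | h2 <;> rw [h1] at h2
    · exact hab (Sum.inl_injective h2)
    · cases h2
    · cases h2
    · exact hab ((act π).injective (Sum.inr_injective h2))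

theorem size_brute {n : ℕ} (hn : 1 ≤ n) : (brute n).size ≤ 4 * n ^ 2 * n.factorial := by
  have h1 : ∀ π : Equiv.Perm (Fin n), (term π).size = Fintype.card (Pr n) * 8 + 1 := by
    intro π
    rw [term, size_bigAnd _ 7]
    · simp
    · intro f hf
      simp only [List.mem_map, mem_toList, mem_univ, true_and] at hf
      obtain ⟨e, rfl⟩ := hf
      rfl
  rw [brute, size_bigOr _ (Fintype.card (Pr n) * 8 + 1)]
  · have h2 := card_Pr n
    have h3 : Fintype.card (Pr n) * 8 = 4 * (n * (n - 1)) := by omega
    rw [h3]
    simp only [List.length_map, length_toList, card_univ, Fintype.card_perm, Fintype.card_fin]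
    have h4 := Nat.factorial_pos n
    obtain ⟨k, rfl⟩ : ∃ k, n = k + 1 := ⟨n - 1, by omega⟩
    simp only [Nat.add_sub_cancel]
    nlinarith
  · intro f hf
    simp only [List.mem_map, mem_toList, mem_univ, true_and] at hf
    obtain ⟨π, rfl⟩ := hf
    exact h1 π

theorem dnnf_upper {n : ℕ} (hn : 1 ≤ n) : ∃ s ≤ 4 * n ^ 2 * n.factorial,
    ∃ C : Circuit (Var n) s, C.Decomposable ∧ ∀ z, C.eval z = true ↔ IsIso z := by
  obtain ⟨C, hC, hCo⟩ := exists_circuit (brute n) (dec_brute n)
  refine ⟨_, size_brute hn, C, hC, ?_⟩
  intro z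
  rw [Circuit.eval, hCo]
  exact eval_brute z

end Pool.Agent.H526R2.GI
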