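import Mathlib
import Pool.Agent.H526R2.GI.Rect

/-! Covering the isomorphic pairs by rectangles with respect to one fixed partition of the input. -/

namespace Pool.Agent.H526R2.GI

open Finset

/-- A set of inputs is an `X`-rectangle if it is closed under replacing the bits inside `X` of
one member by those of another member. -/
def IsRect {n : ℕ} (X : Finset (Var n)) (R : Set (Var n → Bool)) : Prop :=
  ∀ z ∈ R, ∀ z' ∈ R, (fun v => if v ∈ X then z v else z' v) ∈ R

/-- The isomorphic pairs of graphs are the union of `t` sets, each an `X`-rectangle. -/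
def RectCover {n : ℕ} (X : Finset (Var n)) (t : ℕ) : Prop :=
  ∃ R : Fin t → Set (Var n → Bool), (∀ i, IsRect X (R i)) ∧ ∀ z, IsIso z ↔ ∃ i, z ∈ R i

/-- crossing positions -/
def cross {n : ℕ} (X : Finset (Var n)) (π : Equiv.Perm (Fin n)) : Finset (Pr n) :=
  univ.filter (fun e => ¬ (Sum.inl e ∈ X ↔ Sum.inr (act π e) ∈ X))

theorem act_mul {n : ℕ} (σ π : Equiv.Perm (Fin n)) (e : Pr n) :
    act (σ * π) e = act σ (act π e) := by
  apply Subtype.ext
  simp [act, Sym2.map_map, Equiv.Perm.coe_mul]

theorem act_inv {n : ℕ} (σ : Equiv.Perm (Fin n)) (e : Pr n) :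
    act σ⁻¹ e = (act σ).symm e := by
  rw [Equiv.eq_symm_apply, ← act_mul]
  apply Subtype.ext
  simp [act]

theorem exists_act {n : ℕ} (e f : Pr n) : ∃ π : Equiv.Perm (Fin n), act π e = f := by
  obtain ⟨e, he⟩ := e
  obtain ⟨f, hf⟩ := f
  induction e using Sym2.ind with
  | _ i j =>
    induction f using Sym2.ind with
    | _ k l =>
      have hij : i ≠ j := by simpa using he
      have hkl : k ≠ l := by simpa using hf
      refine ⟨Equiv.swap (Equiv.swap i k j) l * Equiv.swap i k, ?_⟩
      apply Subtype.ext
      have h1 : k ≠ Equiv.swap i k j := by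
        intro h
        have : Equiv.swap i k i = Equiv.swap i k j := by rw [← h]; simp
        exact hij ((Equiv.swap i k).injective this)
      simp only [act, Equiv.coe_fn_mk, Sym2.map_mk, Equiv.Perm.coe_mul, Function.comp_apply,
        Equiv.swap_apply_left]
      rw [Equiv.swap_apply_of_ne_of_ne h1 hkl]

theorem card_act_eq {n : ℕ} (e f : Pr n) :
    (univ.filter (fun π : Equiv.Perm (Fin n) => act π e = f)).card =
    (univ.filter (fun π : Equiv.Perm (Fin n) => act π e = e)).card := by
  obtain ⟨β, hβ⟩ := exists_act e f
  symm
  apply card_bij (fun π _ => β * π)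
  · intro π hπ
    simp only [mem_filter, mem_univ, true_and] at hπ ⊢
    rw [act_mul, hπ, hβ]
  · intro a _ b _ h
    exact mul_left_cancel h
  · intro π hπ
    simp only [mem_filter, mem_univ, true_and] at hπ
    refine ⟨β⁻¹ * π, ?_, by group⟩
    simp only [mem_filter, mem_univ, true_and]
    rw [act_mul, hπ, act_inv, ← hβ]
    simp

theorem card_mul_card_act_mem {n : ℕ} (e : Pr n) (B : Finset (Pr n)) :
    Fintype.card (Pr n) * (univ.filter (fun π : Equiv.Perm (Fin n) => act π e ∈ B)).card =
    B.card * n.factorial := by
  have h1 : ∀ C : Finset (Pr n), (univ.filter (fun π : Equiv.Perm (Fin n) => act π e ∈ C)).card =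
      C.card * (univ.filter (fun π : Equiv.Perm (Fin n) => act π e = e)).card := by
    intro C
    have h2 : univ.filter (fun π : Equiv.Perm (Fin n) => act π e ∈ C) =
        C.biUnion (fun f => univ.filter (fun π : Equiv.Perm (Fin n) => act π e = f)) := by
      ext π
      simp
    rw [h2, card_biUnion]
    · rw [sum_congr rfl (fun f _ => card_act_eq e f), sum_const, smul_eq_mul]
    · intro a _ b _ hab
      rw [Function.onFun, disjoint_left]
      intro π h3 h4
      simp only [mem_filter, mem_univ, true_and] at h3 h4
      exact hab (h3.symm.trans h4)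
  have h3 := h1 univ
  simp only [mem_univ, filter_true, card_univ, Fintype.card_perm, Fintype.card_fin] at h3
  rw [h1 B, h3]
  ring

/-- There is a permutation with many crossing positions. -/
theorem exists_cross {n : ℕ} (X : Finset (Var n)) :
    ∃ π, X.card * (2 * Fintype.card (Pr n) - X.card) / (2 * Fintype.card (Pr n)) ≤
      (cross X π).card := by
  classical
  by_contra hcon
  push Not at hcon
  set N := Fintype.card (Pr n) with hN
  have hXle : X.card ≤ 2 * N := by
    rw [← card_Var]
    exact card_le_univ _
  have hNpos : 0 < N := by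
    by_contra h
    have h0 : N = 0 := by omega
    have := hcon 1
    rw [h0] at this
    simp at this
  -- sizes
  have hcr : ∀ π : Equiv.Perm (Fin n), (cross X π).card + 2 *
      ((left X).filter (fun e => act π e ∈ right X)).card = X.card := by
    intro π
    have h1 : (cross X π) = ((left X).filter (fun e => ¬ act π e ∈ right X)) ∪
        (univ.filter (fun e => Sum.inl e ∉ X ∧ act π e ∈ right X)) := by
      ext e
      simp only [cross, left, right, mem_filter, mem_univ, true_and, mem_union]
      tauto
    have h2 : Disjoint ((left X).filter (fun e => ¬ act π e ∈ right X))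
        (univ.filter (fun e => Sum.inl e ∉ X ∧ act π e ∈ right X)) := by
      rw [disjoint_left]
      intro e h3 h4
      simp only [left, mem_filter, mem_univ, true_and] at h3 h4
      exact h4.1 h3.1
    have h3 : ((right X).map (act π).symm.toEmbedding) =
        ((left X).filter (fun e => act π e ∈ right X)) ∪
        (univ.filter (fun e => Sum.inl e ∉ X ∧ act π e ∈ right X)) := by
      ext e
      simp only [left, mem_filter, mem_univ, true_and, mem_union, mem_map_equiv,
        Equiv.symm_symm]
      tauto
    have h4 : Disjoint ((left X).filter (fun e => act π e ∈ right X))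
        (univ.filter (fun e => Sum.inl e ∉ X ∧ act π e ∈ right X)) := by
      rw [disjoint_left]
      intro e h3 h4
      simp only [left, mem_filter, mem_univ, true_and] at h3 h4
      exact h4.1 h3.1
    have h5 := congrArg Finset.card h3
    rw [card_map, card_union_of_disjoint h4] at h5
    rw [h1, card_union_of_disjoint h2, ← card_left_add_card_right, h5]
    have h6 := card_filter_add_card_filter_not (s := left X) (fun e => act π e ∈ right X)
    omega
  -- average
  have havg : N * ∑ π : Equiv.Perm (Fin n), ((left X).filter (fun e => act π e ∈ right X)).card =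
      (left X).card * (right X).card * n.factorial := by
    have h1 : ∑ π : Equiv.Perm (Fin n), ((left X).filter (fun e => act π e ∈ right X)).card =
        ∑ e ∈ left X, (univ.filter (fun π : Equiv.Perm (Fin n) => act π e ∈ right X)).card := by
      simp_rw [card_filter]
      rw [sum_comm]
    rw [h1, mul_sum, sum_congr rfl (fun e _ => card_mul_card_act_mem e (right X)), sum_const,
      smul_eq_mul]
    ring
  have hlr := card_left_add_card_right X
  set a := (left X).card
  set b := (right X).card
  have hsum : ∑ π : Equiv.Perm (Fin n), (cross X π).card * (2 * N) + 4 * (a * b * n.factorial) =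
      2 * N * (X.card * n.factorial) := by
    rw [← havg, ← sum_mul]
    have : ∑ π : Equiv.Perm (Fin n), (cross X π).card + 2 *
        ∑ π : Equiv.Perm (Fin n), ((left X).filter (fun e => act π e ∈ right X)).card =
        X.card * n.factorial := by
      rw [mul_sum, ← sum_add_distrib, sum_congr rfl (fun π _ => hcr π), sum_const, card_univ,
        Fintype.card_perm, Fintype.card_fin, smul_eq_mul, mul_comm]
    rw [← this]
    ring
  have hlt : ∀ π : Equiv.Perm (Fin n), (cross X π).card * (2 * N) + 1 ≤
      X.card * (2 * N - X.card) := by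
    intro π
    have := hcon π
    rw [← Nat.succ_le_iff, Nat.succ_eq_add_one, Nat.le_div_iff_mul_le (by omega), add_mul,
      one_mul] at this
    omega
  have hfin : ∑ π : Equiv.Perm (Fin n), ((cross X π).card * (2 * N) + 1) ≤
      n.factorial * (X.card * (2 * N - X.card)) := by
    refine (sum_le_sum (fun π _ => hlt π)).trans ?_
    rw [sum_const, card_univ, Fintype.card_perm, Fintype.card_fin, smul_eq_mul]
  rw [sum_add_distrib, sum_const, card_univ, Fintype.card_perm, Fintype.card_fin, smul_eq_mul,
    mul_one] at hfin
  have hpos := Nat.factorial_pos n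
  set F := n.factorial
  set S := ∑ π : Equiv.Perm (Fin n), (cross X π).card * (2 * N)
  obtain ⟨y, hy⟩ : ∃ y, 2 * N = X.card + y := ⟨2 * N - X.card, by omega⟩
  have hy2 : 2 * N - X.card = y := by omega
  rw [hy2] at hfin
  rw [hy, ← hlr] at hsum
  rw [← hlr] at hfin
  have h4 : 4 * (a * b) ≤ (a + b) * (a + b) := by nlinarith [sq_nonneg ((a : ℤ) - b), sq_nonneg (a - b), Nat.le_total a b, mul_self_nonneg ((a : ℤ) - b), four_mul_le_sq_add a b]
  nlinarith [Nat.mul_le_mul_right F h4]

end Pool.Agent.H526R2.GI
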