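import Mathlib
import Pool.Agent.H526R2.GI.Part

/-! Lower bound on the number of rectangles with respect to a fixed partition. -/

namespace Pool.Agent.H526R2.GI

open Finset

open Classical in
/-- moved positions such that `e` lies in the second part and so does the image -/
noncomputable def S2 {n : ℕ} (X : Finset (Var n)) (π ρ : Equiv.Perm (Fin n)) : Finset (Pr n) :=
  univ.filter (fun e => Sum.inl e ∉ X ∧ Sum.inr (act π (act ρ e)) ∉ X ∧ act ρ e ≠ e)

open Classical in
/-- typical graphs -/
noncomputable def Typ {n : ℕ} (X : Finset (Var n)) (π : Equiv.Perm (Fin n)) (k : ℕ) :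
    Finset (Pr n → Bool) :=
  univ.filter (fun x => ∀ ρ, 3 * k ≤ (S2 X π ρ).card → ∃ e ∈ S2 X π ρ, x e ≠ x (act ρ e))

theorem card_atypical {n : ℕ} (X : Finset (Var n)) (π : Equiv.Perm (Fin n)) (k : ℕ) :
    (Typ X π k)ᶜ.card * 2 ^ k ≤ n.factorial * 2 ^ Fintype.card (Pr n) := by
  classical
  have h1 : (Typ X π k)ᶜ ⊆ (univ.filter (fun ρ => 3 * k ≤ (S2 X π ρ).card)).biUnion
      (fun ρ => univ.filter (fun x : Pr n → Bool => ∀ e ∈ S2 X π ρ, x e = x (act ρ e))) := by
    intro x hx
    simp only [Typ, mem_compl, mem_filter, mem_univ, true_and, not_forall, not_exists, not_and,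
      ne_eq, not_not] at hx
    obtain ⟨ρ, h1, h2⟩ := hx
    simp only [mem_biUnion, mem_filter, mem_univ, true_and]
    exact ⟨ρ, h1, h2⟩
  have h2 : ∀ ρ ∈ univ.filter (fun ρ => 3 * k ≤ (S2 X π ρ).card),
      (univ.filter (fun x : Pr n → Bool => ∀ e ∈ S2 X π ρ, x e = x (act ρ e))).card * 2 ^ k
        ≤ 2 ^ Fintype.card (Pr n) := by
    intro ρ hρ
    simp only [mem_filter, mem_univ, true_and] at hρ
    obtain ⟨D', hD, h3, h4⟩ := exists_indep (fun e => e) (fun e => act ρ e) (S2 X π ρ)
      (fun _ _ _ _ h => h) ((act ρ).injective.injOn) (by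
        intro e he
        simp only [S2, mem_filter, mem_univ, true_and] at he
        exact he.2.2.symm)
    have h5 := card_sol_le (fun e => e) (fun e => act ρ e) D' (fun _ _ _ _ h => h) h4
    refine le_trans (Nat.mul_le_mul (card_le_card ?_) (Nat.pow_le_pow_right (by norm_num)
      (show k ≤ D'.card by omega))) h5
    intro x hx
    simp only [mem_filter, mem_univ, true_and] at hx ⊢
    intro e he
    exact hx e (hD he)
  calc (Typ X π k)ᶜ.card * 2 ^ k
      ≤ (∑ ρ ∈ univ.filter (fun ρ => 3 * k ≤ (S2 X π ρ).card),
          (univ.filter (fun x : Pr n → Bool => ∀ e ∈ S2 X π ρ, x e = x (act ρ e))).card) * 2 ^ k :=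
        Nat.mul_le_mul_right _ ((card_le_card h1).trans card_biUnion_le)
    _ = ∑ ρ ∈ univ.filter (fun ρ => 3 * k ≤ (S2 X π ρ).card),
          (univ.filter (fun x : Pr n → Bool => ∀ e ∈ S2 X π ρ, x e = x (act ρ e))).card * 2 ^ k := by
        rw [sum_mul]
    _ ≤ ∑ ρ ∈ univ.filter (fun ρ => 3 * k ≤ (S2 X π ρ).card), 2 ^ Fintype.card (Pr n) :=
        sum_le_sum h2
    _ ≤ ∑ ρ : Equiv.Perm (Fin n), 2 ^ Fintype.card (Pr n) :=
        sum_le_sum_of_subset (subset_univ _)
    _ = _ := by
        rw [sum_const, card_univ, Fintype.card_perm, Fintype.card_fin, smul_eq_mul]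

theorem card_typ_slice {n : ℕ} (X : Finset (Var n)) (π : Equiv.Perm (Fin n)) (k : ℕ)
    (R : (Var n → Bool) → Prop) (hR : ∀ z z', R z → R z' → IsIso (mix X z z')) :
    ((Typ X π k) ∩ slice R π).card ≤
      n.factorial * 2 ^ (6 * k) * 2 ^ (Fintype.card (Pr n) - (cross X π).card) := by
  classical
  have hcardT : Fintype.card ({e // e ∉ cross X π} → Bool) =
      2 ^ (Fintype.card (Pr n) - (cross X π).card) := by
    rw [Fintype.card_fun, Fintype.card_bool, Fintype.card_subtype_compl, Fintype.card_coe]
  rw [← hcardT, ← card_univ]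
  refine card_le_mul_card_image_of_maps_to (f := fun x (e : {e // e ∉ cross X π}) => x e.1)
    (fun _ _ => mem_univ _) _ ?_
  intro u _
  rcases ((Typ X π k ∩ slice R π).filter
    (fun a => (fun e : {e // e ∉ cross X π} => a e.1) = u)).eq_empty_or_nonempty with h0 | ⟨x, hx⟩
  · rw [h0]
    simp
  · simp only [mem_filter, mem_inter] at hx
    obtain ⟨⟨_, hxs⟩, hxu⟩ := hx
    -- solutions for a fixed permutation
    let Sol : Equiv.Perm (Fin n) → Finset (Pr n → Bool) := fun ρ =>
      (Typ X π k).filter (fun x' => (∀ e, e ∉ cross X π → x' e = x e) ∧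
        ∀ e, (if Sum.inl e ∈ X then x e else x' e) =
          (if Sum.inr (act π (act ρ e)) ∈ X then x (act ρ e) else x' (act ρ e)))
    have hsub : (Typ X π k ∩ slice R π).filter
        (fun a => (fun e : {e // e ∉ cross X π} => a e.1) = u) ⊆ univ.biUnion Sol := by
      intro x' hx'
      simp only [mem_filter, mem_inter] at hx'
      obtain ⟨⟨hT, hs⟩, hu⟩ := hx'
      simp only [slice, mem_filter, mem_univ, true_and] at hs hxs
      obtain ⟨σ, hσ⟩ := (isIso_iff _).1 (hR _ _ hxs hs)
      simp only [mem_biUnion, mem_univ, true_and, Sol, mem_filter]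
      refine ⟨π⁻¹ * σ, hT, ?_, ?_⟩
      · intro e he
        have h1 := congrFun hu ⟨e, he⟩
        have h2 := congrFun hxu ⟨e, he⟩
        exact h1.trans h2.symm
      · intro e
        have h1 := hσ e
        have h2 : act π (act (π⁻¹ * σ) e) = act σ e := by
          rw [← act_mul]
          simp
        have h3 : act (π⁻¹ * σ) e = (act π).symm (act σ e) := by
          rw [act_mul, act_inv]
        rw [h2, h3]
        simp only [mix, inp, Sum.elim_inl, Sum.elim_inr] at h1
        exact h1.symm
    have hcard : ∀ ρ, (Sol ρ).card ≤ 2 ^ (6 * k) := by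
      intro ρ
      by_cases hS : 3 * k ≤ (S2 X π ρ).card
      · have : Sol ρ = ∅ := by
          rw [eq_empty_iff_forall_notMem]
          intro x' hx'
          simp only [Sol, mem_filter] at hx'
          obtain ⟨hT, _, h2⟩ := hx'
          simp only [Typ, mem_filter, mem_univ, true_and] at hT
          obtain ⟨e, he, hne⟩ := hT ρ hS
          simp only [S2, mem_filter, mem_univ, true_and] at he
          have := h2 e
          rw [if_neg he.1, if_neg he.2.1] at this
          exact hne this
        rw [this]
        simp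
      · push Not at hS
        set W := S2 X π ρ ∪ (S2 X π ρ).image (act ρ) with hW
        have hWcard : W.card ≤ 6 * k := by
          have h1 : W.card ≤ _ := card_union_le (S2 X π ρ) ((S2 X π ρ).image (act ρ))
          have h2 : ((S2 X π ρ).image (act ρ)).card ≤ (S2 X π ρ).card := card_image_le
          omega
        have h1 : (Sol ρ).card ≤ Fintype.card ({e // e ∈ W} → Bool) := by
          rw [← card_univ]
          refine card_le_card_of_injOn (fun x' e => x' e.1) (fun _ _ => mem_univ _) ?_
          intro y hy y' hy' hyy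
          simp only [Sol, coe_filter, Set.mem_ofPred_eq] at hy hy'
          obtain ⟨_, hy1, hy2⟩ := hy
          obtain ⟨_, hy1', hy2'⟩ := hy'
          have key : ∀ e ∈ W, y e = y' e := fun e he => congrFun hyy ⟨e, he⟩
          funext e
          by_cases hc : e ∈ cross X π
          · by_cases ha : Sum.inl e ∈ X
            · -- then the image is not in X
              have hb : Sum.inr (act π e) ∉ X := by
                simp only [cross, mem_filter, mem_univ, true_and] at hc
                tauto
              have h3 := hy2 ((act ρ).symm e)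
              have h4 := hy2' ((act ρ).symm e)
              simp only [Equiv.apply_symm_apply] at h3 h4
              rw [if_neg hb] at h3 h4
              by_cases ha' : Sum.inl ((act ρ).symm e) ∈ X
              · rw [if_pos ha'] at h3 h4
                rw [← h3, ← h4]
              · apply key
                rw [hW, mem_union]
                right
                rw [mem_image]
                refine ⟨(act ρ).symm e, ?_, by simp⟩
                simp only [S2, mem_filter, mem_univ, true_and, Equiv.apply_symm_apply]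
                refine ⟨ha', hb, ?_⟩
                intro h
                rw [← h] at ha'
                exact ha' ha
            · have hb : Sum.inr (act π e) ∈ X := by
                simp only [cross, mem_filter, mem_univ, true_and] at hc
                tauto
              have h3 := hy2 e
              have h4 := hy2' e
              rw [if_neg ha] at h3 h4
              by_cases hb' : Sum.inr (act π (act ρ e)) ∈ X
              · rw [if_pos hb'] at h3 h4
                rw [h3, h4]
              · apply key
                rw [hW, mem_union]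
                left
                simp only [S2, mem_filter, mem_univ, true_and]
                refine ⟨ha, hb', ?_⟩
                intro h
                rw [h] at hb'
                exact hb' hb
          · rw [hy1 e hc, hy1' e hc]
        refine h1.trans ?_
        rw [Fintype.card_fun, Fintype.card_bool, Fintype.card_coe]
        exact Nat.pow_le_pow_right (by norm_num) hWcard
    calc _ ≤ (univ.biUnion Sol).card := card_le_card hsub
      _ ≤ ∑ ρ, (Sol ρ).card := card_biUnion_le
      _ ≤ ∑ ρ : Equiv.Perm (Fin n), 2 ^ (6 * k) := sum_le_sum (fun ρ _ => hcard ρ)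
      _ = n.factorial * 2 ^ (6 * k) := by
        rw [sum_const, card_univ, Fintype.card_perm, Fintype.card_fin, smul_eq_mul]

theorem cover_lower {n t : ℕ} (X : Finset (Var n)) (h : RectCover X t) (π : Equiv.Perm (Fin n)) :
    2 ^ (cross X π).card ≤ 2 ^ 13 * n.factorial ^ 7 * t := by
  classical
  obtain ⟨R, hR, hcov⟩ := h
  set N := Fintype.card (Pr n) with hN
  set L := Nat.log 2 n.factorial + 1 with hL
  have hfpos := Nat.factorial_pos n
  have hL1 : n.factorial < 2 ^ L := Nat.lt_pow_succ_log_self (by norm_num) _
  have hL2 : 2 ^ L ≤ 2 * n.factorial := by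
    rw [hL, pow_succ]
    have := Nat.pow_log_le_self 2 hfpos.ne'
    omega
  -- half of all graphs are typical
  have h1 := card_atypical X π (L + 1)
  have h2 : 2 * (Typ X π (L + 1))ᶜ.card ≤ 2 ^ N := by
    have h3 : (Typ X π (L + 1))ᶜ.card * 2 ^ (L + 1) ≤ 2 ^ L * 2 ^ N :=
      h1.trans (Nat.mul_le_mul_right _ hL1.le)
    have h4 : 2 ^ L * (2 * (Typ X π (L + 1))ᶜ.card) ≤ 2 ^ L * 2 ^ N := by
      rw [pow_succ] at h3
      calc _ = (Typ X π (L + 1))ᶜ.card * (2 ^ L * 2) := by ring
        _ ≤ _ := h3
    exact Nat.le_of_mul_le_mul_left h4 (by positivity)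
  have h3 : 2 ^ N ≤ 2 * (Typ X π (L + 1)).card := by
    have h4 := card_add_card_compl (Typ X π (L + 1))
    rw [Fintype.card_fun, Fintype.card_bool, ← hN] at h4
    omega
  -- cover
  have h4 : Typ X π (L + 1) ⊆ univ.biUnion (fun i =>
      Typ X π (L + 1) ∩ slice (fun z => z ∈ R i) π) := by
    intro x hx
    obtain ⟨i, hi⟩ := (hcov _).1 (isIso_inp π x)
    simp only [mem_biUnion, mem_univ, true_and, mem_inter, slice, mem_filter]
    exact ⟨i, hx, hi⟩
  have h5 : (Typ X π (L + 1)).card ≤
      t * (n.factorial * 2 ^ (6 * (L + 1)) * 2 ^ (N - (cross X π).card)) := by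
    refine (card_le_card h4).trans (card_biUnion_le.trans ?_)
    calc _ ≤ ∑ i : Fin t, (n.factorial * 2 ^ (6 * (L + 1)) * 2 ^ (N - (cross X π).card)) := by
          apply sum_le_sum
          intro i _
          apply card_typ_slice
          intro z z' hz hz'
          exact (hcov _).2 ⟨i, hR i z hz z' hz'⟩
      _ = _ := by
          rw [sum_const, card_univ, Fintype.card_fin, smul_eq_mul]
  have h6 : (cross X π).card ≤ N := card_le_univ _
  have h7 : 2 ^ (cross X π).card * 2 ^ (N - (cross X π).card) = 2 ^ N := by
    rw [← pow_add]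
    congr 1
    omega
  have h8 : 2 ^ (6 * (L + 1)) ≤ 2 ^ 12 * n.factorial ^ 6 := by
    calc 2 ^ (6 * (L + 1)) = (2 * 2 ^ L) ^ 6 := by
          rw [← pow_succ', ← pow_mul, mul_comm]
      _ ≤ (2 * (2 * n.factorial)) ^ 6 := Nat.pow_le_pow_left (by omega) 6
      _ = 2 ^ 12 * n.factorial ^ 6 := by ring
  have h9 : 2 ^ (cross X π).card * 2 ^ (N - (cross X π).card) ≤
      (2 ^ 13 * n.factorial ^ 7 * t) * 2 ^ (N - (cross X π).card) := by
    rw [h7]
    calc 2 ^ N ≤ 2 * (Typ X π (L + 1)).card := h3
      _ ≤ 2 * (t * (n.factorial * 2 ^ (6 * (L + 1)) * 2 ^ (N - (cross X π).card))) :=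
          Nat.mul_le_mul_left _ h5
      _ ≤ 2 * (t * (n.factorial * (2 ^ 12 * n.factorial ^ 6) * 2 ^ (N - (cross X π).card))) := by
          gcongr
      _ = _ := by ring
  exact Nat.le_of_mul_le_mul_right h9 (by positivity)

end Pool.Agent.H526R2.GI
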