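import Mathlib
import Pool.Agent.H526R2.GI.Part

/-! A balanced partition with few rectangles. -/

namespace Pool.Agent.H526R2.GI

open Finset

/-- pairs on which the colouring `c` is constant -/
def mono {n : ℕ} {γ : Type} [DecidableEq γ] (c : Fin n → γ) : Finset (Pr n) :=
  univ.filter (fun e => ∀ i ∈ e.1, ∀ j ∈ e.1, c i = c j)

theorem deg_mono {n : ℕ} {γ : Type} [DecidableEq γ] (c : Fin n → γ) (i : Fin n) :
    deg (mono c) i + 1 = (univ.filter (fun j => c j = c i)).card := by
  classical
  unfold deg
  have h : (mono c).filter (fun e : Pr n => i ∈ e.1) =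
      (univ.filter (fun j : {j // j ≠ i} => c j.1 = c i)).image (pr i) := by
    ext e
    simp only [mono, mem_filter, mem_univ, true_and, mem_image]
    constructor
    · rintro ⟨h1, hi⟩
      obtain ⟨e, he⟩ := e
      obtain ⟨j, rfl⟩ := hi
      refine ⟨⟨j, ?_⟩, ?_, rfl⟩
      · intro h
        apply he
        simp [h]
      · exact h1 j (by simp) i (by simp)
    · rintro ⟨j, hj, rfl⟩
      refine ⟨?_, by simp [pr]⟩
      intro a ha b hb
      simp only [pr, Sym2.mem_iff] at ha hb
      rcases ha with rfl | rfl <;> rcases hb with rfl | rfl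
      · rfl
      · exact hj.symm
      · exact hj
      · rfl
  rw [h, card_image_of_injective _ (pr_injective i)]
  have h2 : (univ.filter (fun j => c j = c i)) =
      insert i ((univ.filter (fun j : {j // j ≠ i} => c j.1 = c i)).image Subtype.val) := by
    ext j
    simp only [mem_filter, mem_univ, true_and, mem_insert, mem_image, Subtype.exists,
      exists_and_left, exists_prop, exists_eq_right_right]
    constructor
    · intro h
      by_cases hj : j = i
      · left; exact hj
      · right; exact ⟨h, hj⟩
    · rintro (rfl | h)
      · rfl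
      · exact h.1
  rw [h2, card_insert_of_notMem, card_image_of_injective _ Subtype.val_injective]
  simp

theorem two_mul_card_mono {n : ℕ} {γ : Type} [DecidableEq γ] [Fintype γ] (c : Fin n → γ) :
    2 * (mono c).card + n = ∑ a : γ, (univ.filter (fun j => c j = a)).card ^ 2 := by
  classical
  have h1 : 2 * (mono c).card + n = ∑ i, (univ.filter (fun j => c j = c i)).card := by
    rw [← sum_deg]
    have h2 : ∑ i, (univ.filter (fun j => c j = c i)).card = ∑ i, (deg (mono c) i + 1) :=
      sum_congr rfl (fun i _ => (deg_mono c i).symm)
    rw [h2, sum_add_distrib]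
    simp
  rw [h1, ← sum_fiberwise univ c]
  apply sum_congr rfl
  intro a _
  rw [pow_two, ← smul_eq_mul, ← sum_const]
  apply sum_congr rfl
  intro i hi
  simp only [mem_filter, mem_univ, true_and] at hi
  rw [hi]

/-- first half of the vertices -/
def half {n : ℕ} (i : Fin n) : Bool := decide (i.1 < n / 2)

theorem card_half (n : ℕ) : (univ.filter (fun i : Fin n => half i = true)).card = n / 2 ∧
    (univ.filter (fun i : Fin n => half i = false)).card = n - n / 2 := by
  classical
  have h1 : (univ.filter (fun i : Fin n => half i = true)).card = n / 2 := by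
    have : univ.filter (fun i : Fin n => half i = true) =
        (univ : Finset (Fin (n / 2))).map (Fin.castLEEmb (by omega)) := by
      ext i
      simp only [half, decide_eq_true_eq, mem_filter, mem_univ, true_and, mem_map,
        Fin.castLEEmb_apply]
      constructor
      · intro h
        exact ⟨⟨i.1, h⟩, by ext; simp⟩
      · rintro ⟨j, rfl⟩
        simp
    rw [this]
    simp
  refine ⟨h1, ?_⟩
  have h2 := card_filter_add_card_filter_not (s := (univ : Finset (Fin n))) (fun i => half i = true)
  rw [h1, card_univ, Fintype.card_fin] at h2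
  have h3 : (univ.filter (fun i : Fin n => half i = false)) =
      univ.filter (fun i : Fin n => ¬ half i = true) := by
    ext i
    simp
  rw [h3]
  omega

theorem card_inner (n : ℕ) : 2 * (mono (half (n := n))).card + n = (n / 2) ^ 2 + (n - n / 2) ^ 2 := by
  rw [two_mul_card_mono]
  rw [Fintype.sum_bool, (card_half n).1, (card_half n).2]

theorem card_both (n : ℕ) (π : Equiv.Perm (Fin n)) :
    n ^ 2 ≤ 8 * ((mono (half (n := n))).filter (fun e => act π e ∈ mono half)).card + 4 * n := by
  classical
  have h1 : (mono (half (n := n))).filter (fun e => act π e ∈ mono half) =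
      mono (fun i => (half i, half (π i))) := by
    ext e
    simp only [mono, mem_filter, mem_univ, true_and, Prod.mk.injEq]
    constructor
    · rintro ⟨h1, h2⟩ i hi j hj
      refine ⟨h1 i hi j hj, h2 _ ?_ _ ?_⟩
      · simp only [act, Equiv.coe_fn_mk, Sym2.mem_map]
        exact ⟨i, hi, rfl⟩
      · simp only [act, Equiv.coe_fn_mk, Sym2.mem_map]
        exact ⟨j, hj, rfl⟩
    · intro h
      refine ⟨fun i hi j hj => (h i hi j hj).1, ?_⟩
      intro i hi j hj
      simp only [act, Equiv.coe_fn_mk, Sym2.mem_map] at hi hj
      obtain ⟨a, ha, rfl⟩ := hi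
      obtain ⟨b, hb, rfl⟩ := hj
      exact (h a ha b hb).2
  rw [h1]
  have h2 := two_mul_card_mono (fun i : Fin n => (half i, half (π i)))
  have h3 : (∑ a : Bool × Bool, (univ.filter (fun j : Fin n => (half j, half (π j)) = a)).card) = n := by
    have := card_eq_sum_card_fiberwise (s := (univ : Finset (Fin n)))
      (t := (univ : Finset (Bool × Bool))) (f := fun i => (half i, half (π i)))
      (fun _ _ => mem_univ _)
    rw [card_univ, Fintype.card_fin] at this
    exact this.symm
  have h4 := sq_sum_le_card_mul_sum_sq (s := (univ : Finset (Bool × Bool)))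
    (f := fun a => (univ.filter (fun j : Fin n => (half j, half (π j)) = a)).card)
  rw [h3] at h4
  have h5 : (univ : Finset (Bool × Bool)).card = 4 := rfl
  rw [h5, ← h2] at h4
  simp only [Nat.cast_ofNat, Nat.cast_id] at h4
  nlinarith

/-- the bits of both graphs that belong to pairs inside the halves -/
def halves (n : ℕ) : Finset (Var n) := (mono half).disjSum (mono half)

theorem card_cross_halves (n : ℕ) (π : Equiv.Perm (Fin n)) :
    4 * (cross (halves n) π).card ≤ n ^ 2 + 2 := by
  classical
  have h1 : (cross (halves n) π).card +
      2 * ((mono (half (n := n))).filter (fun e => act π e ∈ mono half)).card =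
      2 * (mono (half (n := n))).card := by
    have e1 : cross (halves n) π = ((mono half).filter (fun e => ¬ act π e ∈ mono half)) ∪
        (univ.filter (fun e => e ∉ mono half ∧ act π e ∈ mono half)) := by
      ext e
      simp only [cross, halves, inl_mem_disjSum, inr_mem_disjSum, mem_filter, mem_univ, true_and,
        mem_union]
      tauto
    have e2 : Disjoint ((mono (half (n := n))).filter (fun e => ¬ act π e ∈ mono half))
        (univ.filter (fun e => e ∉ mono half ∧ act π e ∈ mono half)) := by
      rw [disjoint_left]
      intro e h3 h4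
      simp only [mem_filter, mem_univ, true_and] at h3 h4
      exact h4.1 h3.1
    have e3 : ((mono half).map (act π).symm.toEmbedding) =
        ((mono half).filter (fun e => act π e ∈ mono half)) ∪
        (univ.filter (fun e => e ∉ mono half ∧ act π e ∈ mono half)) := by
      ext e
      simp only [mem_filter, mem_univ, true_and, mem_union, mem_map_equiv, Equiv.symm_symm]
      tauto
    have e4 : Disjoint ((mono (half (n := n))).filter (fun e => act π e ∈ mono half))
        (univ.filter (fun e => e ∉ mono half ∧ act π e ∈ mono half)) := by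
      rw [disjoint_left]
      intro e h3 h4
      simp only [mem_filter, mem_univ, true_and] at h3 h4
      exact h4.1 h3.1
    have e5 := congrArg Finset.card e3
    rw [card_map, card_union_of_disjoint e4] at e5
    rw [e1, card_union_of_disjoint e2]
    have e6 := card_filter_add_card_filter_not (s := mono (half (n := n)))
      (fun e => act π e ∈ mono half)
    omega
  have h2 := card_both n π
  have h3 := card_inner n
  have h4 : 2 * ((n / 2) ^ 2 + (n - n / 2) ^ 2) ≤ n ^ 2 + 1 := by
    rcases Nat.even_or_odd' n with ⟨k, hk | hk⟩
    · have e1 : n / 2 = k := by omega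
      have e2 : n - n / 2 = k := by omega
      rw [e2, e1, hk]
      nlinarith
    · have e1 : n / 2 = k := by omega
      have e2 : n - n / 2 = k + 1 := by omega
      rw [e2, e1, hk]
      nlinarith
  omega

theorem exists_good_partition (n : ℕ) : ∃ X : Finset (Var n), 2 * X.card = n * (n - 1) ∧
    ∀ π, (cross X π).card ≤ n * (n - 1) / 4 + n + 1 := by
  classical
  rcases Nat.eq_zero_or_pos n with rfl | hn
  · refine ⟨∅, by simp, ?_⟩
    intro π
    have : (cross (∅ : Finset (Var 0)) π).card ≤ Fintype.card (Pr 0) := card_le_univ _
    have h2 := card_Pr 0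
    omega
  have hN := card_Pr n
  have hinner := card_inner n
  have hXc : (halves n).card = 2 * (mono (half (n := n))).card := by
    rw [halves, card_disjSum]
    ring
  have h4 : n ^ 2 ≤ 2 * ((n / 2) ^ 2 + (n - n / 2) ^ 2) ∧
      2 * ((n / 2) ^ 2 + (n - n / 2) ^ 2) ≤ n ^ 2 + 1 := by
    rcases Nat.even_or_odd' n with ⟨k, hk | hk⟩
    · have e1 : n / 2 = k := by omega
      have e2 : n - n / 2 = k := by omega
      rw [e2, e1, hk]
      constructor <;> nlinarith
    · have e1 : n / 2 = k := by omega
      have e2 : n - n / 2 = k + 1 := by omega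
      rw [e2, e1, hk]
      constructor <;> nlinarith
  have hsq : n * (n - 1) + n = n ^ 2 := by
    obtain ⟨k, rfl⟩ : ∃ k, n = k + 1 := ⟨n - 1, by omega⟩
    simp only [Nat.add_sub_cancel]
    ring
  set N := Fintype.card (Pr n) with hNdef
  have hle1 : (halves n).card ≤ N := by omega
  have hle2 : N ≤ Fintype.card (Var n) := by
    rw [card_Var]
    omega
  obtain ⟨X, hX1, hX2⟩ := exists_superset_card_eq hle1 hle2
  refine ⟨X, by omega, ?_⟩
  intro π
  have h5 := card_cross_halves n π
  have h6 : cross X π ⊆ cross (halves n) π ∪ ((left (X \ halves n)) ∪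
      (right (X \ halves n)).image (act π).symm) := by
    intro e he
    simp only [cross, left, right, mem_filter, mem_univ, true_and, mem_union, mem_sdiff,
      mem_image] at he ⊢
    by_cases h7 : Sum.inl e ∈ halves n ↔ Sum.inr (act π e) ∈ halves n
    · right
      by_cases h8 : Sum.inl e ∈ X ∧ Sum.inl e ∉ halves n
      · left; exact h8
      · right
        refine ⟨act π e, ⟨?_, ?_⟩, by simp⟩
        · have := @hX1 (Sum.inl e)
          tauto
        · have := @hX1 (Sum.inl e)
          have := @hX1 (Sum.inr (act π e))
          tauto
    · left; exact h7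
  have h7 := card_le_card h6
  have h8 := card_union_le (cross (halves n) π) ((left (X \ halves n)) ∪
      (right (X \ halves n)).image (act π).symm)
  have h9 := card_union_le (left (X \ halves n)) ((right (X \ halves n)).image (act π).symm)
  have h10 : ((right (X \ halves n)).image (act π).symm).card ≤ (right (X \ halves n)).card :=
    card_image_le
  have h11 := card_left_add_card_right (X \ halves n)
  have h12 : (X \ halves n).card = N - (halves n).card := by
    rw [card_sdiff_of_subset hX1, hX2]
  omega

theorem cover_upper {n c : ℕ} (X : Finset (Var n)) (hX : ∀ π, (cross X π).card ≤ c) :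
    ∃ t ≤ n.factorial * 2 ^ c, RectCover X t := by
  classical
  let I := Σ π : Equiv.Perm (Fin n), ({e // e ∈ cross X π} → Bool)
  refine ⟨Fintype.card I, ?_, ?_⟩
  · rw [Fintype.card_sigma]
    calc _ ≤ ∑ π : Equiv.Perm (Fin n), 2 ^ c := by
          apply sum_le_sum
          intro π _
          rw [Fintype.card_fun, Fintype.card_bool, Fintype.card_coe]
          exact Nat.pow_le_pow_right (by norm_num) (hX π)
      _ = _ := by
          rw [sum_const, card_univ, Fintype.card_perm, Fintype.card_fin, smul_eq_mul]
  · let R : I → Set (Var n → Bool) := fun p => {z | (∀ e, z (Sum.inr (act p.1 e)) = z (Sum.inl e)) ∧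
      ∀ e : {e // e ∈ cross X p.1}, z (Sum.inl e.1) = p.2 e}
    have hR : ∀ p : I, IsRect X (R p) := by
      intro p z hz z' hz'
      obtain ⟨h1, h2⟩ := hz
      obtain ⟨h1', h2'⟩ := hz'
      refine ⟨?_, ?_⟩
      · intro e
        by_cases hc : e ∈ cross X p.1
        · have a1 := h2 ⟨e, hc⟩
          have a2 := h2' ⟨e, hc⟩
          have a3 := h1 e
          have a4 := h1' e
          simp only at a1 a2
          simp only [a3, a4, a1, a2, ite_self]
        · simp only [cross, mem_filter, mem_univ, true_and, not_not] at hc
          by_cases h : Sum.inl e ∈ X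
          · simp only [if_pos h, if_pos (hc.1 h)]
            exact h1 e
          · simp only [if_neg h, if_neg (fun h' => h (hc.2 h'))]
            exact h1' e
      · intro e
        have a1 := h2 e
        have a2 := h2' e
        simp only [a1, a2, ite_self]
    refine ⟨fun i => R ((Fintype.equivFin I).symm i), fun i => hR _, ?_⟩
    intro z
    rw [isIso_iff]
    constructor
    · rintro ⟨π, h⟩
      refine ⟨Fintype.equivFin I ⟨π, fun e => z (Sum.inl e.1)⟩, ?_⟩
      simp only [Equiv.symm_apply_apply]
      exact ⟨h, fun _ => rfl⟩
    · rintro ⟨i, h⟩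
      exact ⟨_, h.1⟩

end Pool.Agent.H526R2.GI
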