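import Mathlib
import Pool.Agent.H526R2.GI.Closed

/-! Almost all labelled graphs are rigid; lower bound for the number of isomorphic pairs. -/

namespace Pool.Agent.H526R2.GI

open Finset

/-- The graph has no nontrivial automorphism. -/
def Rigid {n : ℕ} (x : Pr n → Bool) : Prop :=
  ∀ π : Equiv.Perm (Fin n), (∀ e, x (act π e) = x e) → π = 1

theorem act_one {n : ℕ} (e : Pr n) : act (1 : Equiv.Perm (Fin n)) e = e := by
  apply Subtype.ext
  show e.1.map (1 : Equiv.Perm (Fin n)) = e.1
  have : ((1 : Equiv.Perm (Fin n)) : Fin n → Fin n) = id := rfl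
  rw [this, Sym2.map_id]
  rfl

theorem act_mul {n : ℕ} (π σ : Equiv.Perm (Fin n)) (e : Pr n) : act (π * σ) e = act π (act σ e) := by
  apply Subtype.ext
  show e.1.map (π * σ : Equiv.Perm (Fin n)) = (e.1.map σ).map π
  rw [Sym2.map_map]
  rfl

theorem act_symm {n : ℕ} (π : Equiv.Perm (Fin n)) (e : Pr n) : (act π).symm e = act π⁻¹ e := by
  rw [Equiv.symm_apply_eq, ← act_mul, mul_inv_cancel, act_one]

open Classical in
/-- moved points -/
noncomputable def moved {n : ℕ} (π : Equiv.Perm (Fin n)) : Finset (Fin n) :=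
  univ.filter (fun i => π i ≠ i)

open Classical in
/-- graphs invariant under `π` -/
noncomputable def inv {n : ℕ} (π : Equiv.Perm (Fin n)) : Finset (Pr n → Bool) :=
  univ.filter (fun x => ∀ e, x (act π e) = x e)

theorem card_inv_le {n : ℕ} (π : Equiv.Perm (Fin n)) :
    (inv π).card * 2 ^ ((moved π).card * ((n - 2) / 6)) ≤ 2 ^ Fintype.card (Pr n) := by
  classical
  have h := card_sol_le' (I := Pr n) (V := Pr n) (fun e => act π e) (fun e => e) (act π).injective
    (fun a b h => h) ((moved π).card * ((n - 2) / 6)) (by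
      set B := univ.filter (fun e : Pr n => act π e ≠ e) with hB
      have h1 : (moved π).card * (n - 2) ≤ 2 * B.card := by
        rw [← sum_deg B, ← smul_eq_mul, ← sum_const]
        refine le_trans ?_ (sum_le_sum_of_subset (subset_univ (moved π)))
        apply sum_le_sum
        intro i hi
        simp only [moved, mem_filter, mem_univ, true_and] at hi
        have := deg_le_deg_bad (A := univ) (B := B) 1 π i (by simpa using hi) (by
          intro e _ he
          simp only [hB, mem_filter, mem_univ, true_and, not_not] at he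
          rw [he, act_one])
        rw [deg_univ] at this
        omega
      have h2 : 6 * ((n - 2) / 6) ≤ n - 2 := Nat.mul_div_le _ _
      have h3 : (moved π).card * (6 * ((n - 2) / 6)) ≤ (moved π).card * (n - 2) :=
        Nat.mul_le_mul_left _ h2
      have h4 : 2 * (3 * ((moved π).card * ((n - 2) / 6))) = (moved π).card * (6 * ((n - 2) / 6)) := by
        ring
      omega)
  refine le_trans (Nat.mul_le_mul_right _ (card_le_card ?_)) h
  intro x hx
  simp only [inv, mem_filter, mem_univ, true_and] at hx ⊢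
  exact hx

theorem card_moved_eq_le {n : ℕ} (T : Finset (Fin n)) :
    (univ.filter (fun π : Equiv.Perm (Fin n) => moved π = T)).card ≤ n ^ T.card := by
  classical
  have h := card_fix (n := n) Tᶜ
  have h1 : n - Tᶜ.card = T.card := by
    have := card_add_card_compl T
    rw [Fintype.card_fin] at this
    omega
  rw [h1] at h
  have hT : T.card ≤ n := by
    have := card_le_univ T
    rwa [Fintype.card_fin] at this
  calc (univ.filter (fun π : Equiv.Perm (Fin n) => moved π = T)).card
      ≤ (univ.filter (fun π : Equiv.Perm (Fin n) => ∀ i ∈ Tᶜ, π i = i)).card := by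
        apply card_le_card
        intro π hπ
        simp only [mem_filter, mem_univ, true_and, mem_compl] at hπ ⊢
        intro i hi
        by_contra h
        apply hi
        rw [← hπ]
        simp [moved, h]
    _ = T.card.factorial := h
    _ ≤ T.card ^ T.card := Nat.factorial_le_pow _
    _ ≤ n ^ T.card := Nat.pow_le_pow_left hT _

theorem sum_pow_moved_le {n : ℕ} (δ : ℝ) (hδ : 0 ≤ δ) :
    ∑ π : Equiv.Perm (Fin n), δ ^ (moved π).card ≤ (1 + n * δ) ^ n := by
  classical
  have h1 : ∑ π : Equiv.Perm (Fin n), δ ^ (moved π).card =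
      ∑ T : Finset (Fin n), ∑ π ∈ univ.filter (fun π : Equiv.Perm (Fin n) => moved π = T),
        δ ^ (moved π).card := (sum_fiberwise _ _ _).symm
  rw [h1]
  have h2 : ∀ T ∈ (univ : Finset (Finset (Fin n))),
      ∑ π ∈ univ.filter (fun π : Equiv.Perm (Fin n) => moved π = T), δ ^ (moved π).card ≤
        (n * δ) ^ T.card * 1 ^ (Fintype.card (Fin n) - T.card) := by
    intro T _
    have : ∀ π ∈ univ.filter (fun π : Equiv.Perm (Fin n) => moved π = T),
        δ ^ (moved π).card = δ ^ T.card := by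
      intro π hπ
      simp only [mem_filter, mem_univ, true_and] at hπ
      rw [hπ]
    rw [sum_congr rfl this, sum_const, nsmul_eq_mul, one_pow, mul_one, mul_pow]
    apply mul_le_mul_of_nonneg_right _ (pow_nonneg hδ _)
    exact_mod_cast card_moved_eq_le T
  refine (sum_le_sum h2).trans ?_
  rw [Fintype.sum_pow_mul_eq_add_pow, Fintype.card_fin, add_comm]

open Classical in
/-- the rigid graphs -/
noncomputable def rig (n : ℕ) : Finset (Pr n → Bool) := univ.filter (fun x => Rigid x)

theorem card_rig_ge (n : ℕ) :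
    (2 : ℝ) ^ Fintype.card (Pr n) * (2 - (1 + n * (2⁻¹ : ℝ) ^ ((n - 2) / 6)) ^ n) ≤ (rig n).card := by
  classical
  set q := (n - 2) / 6 with hq
  set N := Fintype.card (Pr n) with hN
  set δ : ℝ := (2⁻¹ : ℝ) ^ q with hδ
  have hcov : (univ : Finset (Pr n → Bool)) ⊆ rig n ∪ (univ.erase (1 : Equiv.Perm (Fin n))).biUnion inv := by
    intro x _
    simp only [mem_union, rig, mem_filter, mem_univ, true_and, mem_biUnion, mem_erase, inv]
    by_cases h : Rigid x
    · exact Or.inl h
    · right
      unfold Rigid at h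
      push Not at h
      obtain ⟨π, h1, h2⟩ := h
      exact ⟨π, ⟨h2, trivial⟩, h1⟩
  have h1 := (card_le_card hcov).trans ((card_union_le _ _).trans (Nat.add_le_add_left card_biUnion_le _))
  rw [card_univ, Fintype.card_fun, Fintype.card_bool] at h1
  have h2 : (2 : ℝ) ^ N ≤ (rig n).card + ∑ π ∈ univ.erase (1 : Equiv.Perm (Fin n)), ((inv π).card : ℝ) := by
    exact_mod_cast h1
  have h3 : ∀ π : Equiv.Perm (Fin n), ((inv π).card : ℝ) ≤ 2 ^ N * δ ^ (moved π).card := by
    intro π
    have h := card_inv_le π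
    have h' : ((inv π).card : ℝ) * 2 ^ ((moved π).card * q) ≤ 2 ^ N := by exact_mod_cast h
    have hδ' : δ ^ (moved π).card = ((2 : ℝ) ^ ((moved π).card * q))⁻¹ := by
      rw [hδ, ← pow_mul, inv_pow, mul_comm]
    rw [hδ', ← div_eq_mul_inv, le_div_iff₀ (by positivity)]
    exact h'
  have h4 := sum_pow_moved_le (n := n) δ (by positivity)
  rw [← add_sum_erase _ _ (mem_univ (1 : Equiv.Perm (Fin n)))] at h4
  have h5 : moved (1 : Equiv.Perm (Fin n)) = ∅ := by
    simp [moved]
  rw [h5, card_empty, pow_zero] at h4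
  have h6 : ∑ π ∈ univ.erase (1 : Equiv.Perm (Fin n)), ((inv π).card : ℝ) ≤
      2 ^ N * ∑ π ∈ univ.erase (1 : Equiv.Perm (Fin n)), δ ^ (moved π).card := by
    rw [mul_sum]
    exact sum_le_sum (fun π _ => h3 π)
  have h7 : (2 : ℝ) ^ N * ∑ π ∈ univ.erase (1 : Equiv.Perm (Fin n)), δ ^ (moved π).card ≤
      2 ^ N * ((1 + n * δ) ^ n - 1) := by
    apply mul_le_mul_of_nonneg_left _ (by positivity)
    linarith
  nlinarith [h2, h6, h7]

open Classical in
/-- the isomorphic pairs -/
noncomputable def isoPairs (n : ℕ) : Finset (Var n → Bool) := univ.filter (fun z => IsIso z)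

theorem card_isoPairs_ge (n : ℕ) : (rig n).card * n.factorial ≤ (isoPairs n).card := by
  classical
  have h : (rig n).card * n.factorial = (rig n ×ˢ (univ : Finset (Equiv.Perm (Fin n)))).card := by
    rw [card_product, card_univ, Fintype.card_perm, Fintype.card_fin]
  rw [h]
  refine card_le_card_of_injOn (fun p => inp p.2 p.1) ?_ ?_
  · intro p _
    simp only [isoPairs, coe_filter, mem_univ, true_and, Set.mem_ofPred_eq]
    exact isIso_inp _ _
  · rintro ⟨x, π⟩ hp ⟨y, σ⟩ _ h
    have hx : Rigid x := by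
      have hp2 : (x, π) ∈ rig n ×ˢ (univ : Finset (Equiv.Perm (Fin n))) := by exact_mod_cast hp
      have := (mem_product.1 hp2).1
      simpa [rig] using this
    have h1 : x = y := by
      funext e
      have := congrFun h (Sum.inl e)
      simpa [inp] using this
    subst h1
    have h2 : ∀ e, x (act π⁻¹ e) = x (act σ⁻¹ e) := by
      intro e
      have := congrFun h (Sum.inr e)
      simpa [inp, act_symm] using this
    have h3 : π⁻¹ * σ = 1 := by
      apply hx
      intro e
      rw [act_mul, h2 (act σ e), ← act_mul, inv_mul_cancel, act_one]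
    have h4 : π = σ := by
      rw [inv_mul_eq_one] at h3
      exact h3
    rw [h4]

theorem eventually_small (ε : ℝ) (hε : 0 < ε) :
    ∃ n₀ : ℕ, ∀ n ≥ n₀, (1 + (n : ℝ) * (2⁻¹ : ℝ) ^ ((n - 2) / 6)) ^ n ≤ 1 + ε := by
  -- n² 2^{-q} → 0
  have h1 : Filter.Tendsto (fun q : ℕ => (196 : ℝ) * ((q : ℝ) ^ 2 / 2 ^ q)) Filter.atTop (nhds 0) := by
    have := tendsto_pow_const_div_const_pow_of_one_lt 2 (r := (2 : ℝ)) (by norm_num)
    simpa using this.const_mul 196
  have hlog : 0 < Real.log (1 + ε) := Real.log_pos (by linarith)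
  obtain ⟨q₀, hq₀⟩ := Filter.eventually_atTop.1 (h1.eventually (gt_mem_nhds hlog))
  refine ⟨6 * (q₀ + 1) + 8, fun n hn => ?_⟩
  set q := (n - 2) / 6 with hq
  have hq1 : q₀ ≤ q := by omega
  have hq2 : 1 ≤ q := by omega
  have hn2 : n ≤ 14 * q := by omega
  have h2 := hq₀ q hq1
  have hδ : (0 : ℝ) ≤ (2⁻¹ : ℝ) ^ q := by positivity
  have h3 : (1 + (n : ℝ) * (2⁻¹ : ℝ) ^ q) ^ n ≤ Real.exp ((n : ℝ) * (2⁻¹ : ℝ) ^ q) ^ n := by
    apply pow_le_pow_left₀ (by positivity)
    have := Real.add_one_le_exp ((n : ℝ) * (2⁻¹ : ℝ) ^ q)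
    linarith
  refine h3.trans ?_
  rw [← Real.exp_nat_mul]
  have h4 : (n : ℝ) * ((n : ℝ) * (2⁻¹ : ℝ) ^ q) ≤ Real.log (1 + ε) := by
    refine le_trans ?_ h2.le
    have hn3 : (n : ℝ) ≤ 14 * q := by exact_mod_cast hn2
    have hn4 : (n : ℝ) * n ≤ 14 * q * (14 * q) :=
      mul_le_mul hn3 hn3 (by positivity) (by positivity)
    calc (n : ℝ) * ((n : ℝ) * (2⁻¹ : ℝ) ^ q) = ((n : ℝ) * n) * (2⁻¹ : ℝ) ^ q := by ring
      _ ≤ (14 * q * (14 * q)) * (2⁻¹ : ℝ) ^ q := mul_le_mul_of_nonneg_right hn4 hδ
      _ = 196 * ((q : ℝ) ^ 2 / 2 ^ q) := by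
        rw [inv_pow, div_eq_mul_inv]
        ring
  calc Real.exp ((n : ℝ) * ((n : ℝ) * (2⁻¹ : ℝ) ^ q)) ≤ Real.exp (Real.log (1 + ε)) :=
        Real.exp_le_exp.2 h4
    _ = 1 + ε := Real.exp_log (by linarith)

end Pool.Agent.H526R2.GI
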